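import Pool.Agent.Lib.HLB.T1Lower
import Pool.Agent.Lib.HLD.SingTail2
import Pool.Agent.Lib.MP.PDat

/-!
# Upper bound for the number of prime values of any tuple, repeated entries allowed

Sketch. `SI_upper`: `sing_tail3` (with `R = r`) gives `SI t ≤ 2 * SZ (zz r x) t`; each factor of `SZ` is at most
`(1 - 1/p) * (1 - 1/p)⁻¹ ^ r = ((1 - 1/p)⁻¹) ^ (r - 1)` (`nuI ≥ 1`, `nuI_pos`), so
`SZ ≤ (DZ z)⁻¹ ^ (r - 1)`; `MP.DZ_lower` (in MP/PDat) gives `(DZ z)⁻¹ ≤ log z / c ≤ log log x / c` for `2 ≤ z ≤ log x`.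
`cnt_upper_all`: let `t' : {m // m ∈ univ.image t} → ℕ` be the inclusion of the set of the entries; it is
injective, `cnt t x = cnt t' x`, `nuI t' = nuI t`, its number of indices is the number `k` of distinct entries, `1 ≤ k ≤ r`. If it is admissible use
`tuple_upperI k` and `SI_upper`; otherwise `count_inadm` gives `cnt ≤ k ≤ x / (log x) ^ k` for large `x`. Take the
maximum (or the sum) of the constants over `k ≤ r`. `loglog x ≥ 1` for large `x`.
-/

set_option autoImplicit false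

open Finset Filter

namespace Pool.Agent.AS

open Pool.Agent.HLB Pool.Agent.HLD Pool.Agent.Lib.Sieve4

namespace CntBoundAux

lemma locI_le_pow {ι : Type} [Fintype ι] [Nonempty ι] (t : ι → ℕ) {p : ℕ} (hp : p.Prime) :
    locI t p ≤ ((1 - 1 / (p : ℝ))⁻¹) ^ (Fintype.card ι - 1) := by
  unfold locI
  have hp2 : (2 : ℝ) ≤ p := by exact_mod_cast hp.two_le
  have hu : 0 < 1 - 1 / (p : ℝ) := by
    rw [sub_pos, div_lt_one (by linarith)]
    linarith
  obtain ⟨m, hm⟩ : ∃ m, Fintype.card ι = m + 1 :=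
    ⟨Fintype.card ι - 1, by have := Fintype.card_pos (α := ι); omega⟩
  rw [hm, Nat.add_sub_cancel, pow_succ', ← mul_assoc]
  have h1 : (1 : ℝ) ≤ nuI t p := by exact_mod_cast nuI_pos t p
  have h2 : (1 - (nuI t p : ℝ) / p) * (1 - 1 / (p : ℝ))⁻¹ ≤ 1 := by
    rw [← div_eq_mul_inv, div_le_one hu]
    gcongr
  calc _ ≤ 1 * ((1 - 1 / (p : ℝ))⁻¹) ^ m := mul_le_mul_of_nonneg_right h2 (by positivity)
    _ = _ := one_mul _

lemma SZ_le {ι : Type} [Fintype ι] [Nonempty ι] (z : ℕ) (t : ι → ℕ) :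
    SZ z t ≤ (DZ z)⁻¹ ^ (Fintype.card ι - 1) := by
  unfold SZ DZ
  rw [← Finset.prod_inv_distrib, ← Finset.prod_pow]
  exact Finset.prod_le_prod (fun p hp => locI_nonneg t (Nat.mem_primesLE.1 hp).2)
    (fun p hp => locI_le_pow t (Nat.mem_primesLE.1 hp).2)

lemma tendsto_log : Tendsto (fun x : ℕ => Real.log (x : ℝ)) atTop atTop :=
  Real.tendsto_log_atTop.comp tendsto_natCast_atTop_atTop

end CntBoundAux

open CntBoundAux

theorem SI_upper (r K : ℕ) (hr : 1 ≤ r) : ∃ C : ℝ, 0 < C ∧ ∀ᶠ x : ℕ in atTop,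
    ∀ (ι : Type) [Fintype ι] (t : ι → ℕ), Fintype.card ι = r → Function.Injective t →
      (∀ i, (t i : ℝ) ≤ x * Real.log x ^ K) → SI t ≤ C * Real.log (Real.log x) ^ (r - 1) := by
  obtain ⟨c, hc, hDZ⟩ := Pool.Agent.Lib.MP.DZ_lower
  refine ⟨2 * (1 / c) ^ (r - 1), by positivity, ?_⟩
  filter_upwards [sing_tail3 r r K hr (ε := 1) one_pos,
    tendsto_log.eventually (eventually_ge_atTop (2 * ((r : ℝ) + 1) * 2))] with x h1 h2 ι _ t hcard ht htx
  have hne : Nonempty ι := Fintype.card_pos_iff.1 (by omega)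
  have h3 := h1 ι t hcard ht htx
  have hr0 : (0 : ℝ) ≤ r := Nat.cast_nonneg r
  have hlog0 : 0 ≤ Real.log (x : ℝ) := by nlinarith
  have hz2 : 2 ≤ zz r x := by
    apply Nat.le_floor
    rw [le_div_iff₀ (by positivity)]
    push_cast
    linarith
  have hzlog : ((zz r x : ℕ) : ℝ) ≤ Real.log x :=
    (Nat.floor_le (by positivity)).trans (div_le_self hlog0 (by linarith))
  have hz1 : (1 : ℝ) < (zz r x : ℕ) := by exact_mod_cast (by omega : 1 < zz r x)
  have hlz : 0 < Real.log ((zz r x : ℕ) : ℝ) := Real.log_pos hz1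
  have h4 := SZ_le (zz r x) t
  rw [hcard] at h4
  have h5 : (DZ (zz r x))⁻¹ ≤ 1 / c * Real.log (Real.log x) := by
    calc (DZ (zz r x))⁻¹ ≤ (c / Real.log ((zz r x : ℕ) : ℝ))⁻¹ :=
          inv_anti₀ (by positivity) (hDZ _ hz2)
      _ = 1 / c * Real.log ((zz r x : ℕ) : ℝ) := by
          rw [inv_div]
          ring
      _ ≤ 1 / c * Real.log (Real.log x) := by
          apply mul_le_mul_of_nonneg_left _ (by positivity)
          exact Real.log_le_log (by linarith) hzlog
  have h6 : 0 ≤ (DZ (zz r x))⁻¹ := inv_nonneg.2 (DZ_pos _).le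
  calc SI t ≤ (1 + 1) * SZ (zz r x) t := h3
    _ ≤ (1 + 1) * (1 / c * Real.log (Real.log x)) ^ (r - 1) := by
        apply mul_le_mul_of_nonneg_left _ (by norm_num)
        exact h4.trans (pow_le_pow_left₀ h6 h5 _)
    _ = 2 * (1 / c) ^ (r - 1) * Real.log (Real.log x) ^ (r - 1) := by
        rw [mul_pow]
        ring

theorem cnt_upper_all (r K : ℕ) (hr : 1 ≤ r) : ∃ C : ℝ, 0 < C ∧ ∀ᶠ x : ℕ in atTop,
    ∀ (ι : Type) [Fintype ι] [DecidableEq ι] (t : ι → ℕ), Fintype.card ι = r →
      (∀ i, (t i : ℝ) ≤ x * Real.log x ^ K) →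
      (cnt t x : ℝ) ≤ C * Real.log (Real.log x) ^ r * (x / Real.log x ^ (univ.image t).card) := by
  have hk : ∀ k : ℕ, ∃ C : ℝ, 0 < C ∧ (1 ≤ k → ∀ᶠ x : ℕ in atTop,
      ∀ (ι : Type) [Fintype ι] (t : ι → ℕ), Fintype.card ι = k → Function.Injective t →
      (∀ p : ℕ, p.Prime → nuI t p < p) →
      (∀ i, (t i : ℝ) ≤ x * Real.log x ^ K) →
      (cnt t x : ℝ) ≤ C * Real.log (Real.log x) ^ (k - 1) * (x / Real.log x ^ k)) := by
    intro k
    rcases Nat.eq_zero_or_pos k with h0 | h0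
    · exact ⟨1, one_pos, fun h => by omega⟩
    · obtain ⟨C1, hC1, h1⟩ := SI_upper k K h0
      obtain ⟨C2, hC2, h2⟩ := tuple_upperI k h0
      refine ⟨C2 * C1, by positivity, fun _ => ?_⟩
      filter_upwards [h1, eventually_ge_atTop 2] with x h1x hx ι _ t hcard ht hadm htx
      have h3 := h2 ι t hcard ht hadm x hx
      have h4 := h1x ι t hcard ht htx
      have hlog : 0 < Real.log (x : ℝ) := Real.log_pos (by exact_mod_cast hx)
      calc (cnt t x : ℝ) ≤ C2 * SI t * (x / Real.log x ^ k) := by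
            unfold cnt
            convert h3
        _ ≤ C2 * (C1 * Real.log (Real.log x) ^ (k - 1)) * (x / Real.log x ^ k) := by
            gcongr
        _ = C2 * C1 * Real.log (Real.log x) ^ (k - 1) * (x / Real.log x ^ k) := by ring
  choose C hC hCk using hk
  have hsum : 0 < (r : ℝ) + ∑ k ∈ Finset.range (r + 1), C k :=
    add_pos (by exact_mod_cast hr) (Finset.sum_pos (fun k _ => hC k) ⟨0, by simp⟩)
  have hall : ∀ᶠ x : ℕ in atTop, ∀ k ∈ Finset.Icc 1 r,
      ∀ (ι : Type) [Fintype ι] (t : ι → ℕ), Fintype.card ι = k → Function.Injective t →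
      (∀ p : ℕ, p.Prime → nuI t p < p) →
      (∀ i, (t i : ℝ) ≤ x * Real.log x ^ K) →
      (cnt t x : ℝ) ≤ C k * Real.log (Real.log x) ^ (k - 1) * (x / Real.log x ^ k) := by
    rw [Filter.eventually_all_finset]
    intro k hkk
    exact hCk k (Finset.mem_Icc.1 hkk).1
  refine ⟨_, hsum, ?_⟩
  filter_upwards [hall, log_pow_le_self r, tendsto_log.eventually (eventually_ge_atTop (Real.exp 1)),
    eventually_ge_atTop 2] with x h1 h2 h3 hx ι _ _ t hcard htx
  have hx0 : (0 : ℝ) < x := by exact_mod_cast (by omega : 0 < x)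
  have hlog1 : 1 ≤ Real.log (x : ℝ) := (Real.one_le_exp zero_le_one).trans h3
  have hll : 1 ≤ Real.log (Real.log x) := by
    rw [Real.le_log_iff_exp_le (by linarith)]
    exact h3
  have hne : Nonempty ι := Fintype.card_pos_iff.1 (by omega)
  set S := univ.image t with hS
  have hk1 : 1 ≤ S.card := by
    rw [Nat.one_le_iff_ne_zero, Finset.card_ne_zero]
    exact Finset.univ_nonempty.image t
  have hkr : S.card ≤ r := by
    have := Finset.card_image_le (s := (univ : Finset ι)) (f := t)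
    rwa [Finset.card_univ, hcard] at this
  set t' : {m // m ∈ S} → ℕ := Subtype.val with ht'
  have hcard' : Fintype.card {m // m ∈ S} = S.card := Fintype.card_coe S
  have ht'inj : Function.Injective t' := Subtype.val_injective
  have ht'x : ∀ i, (t' i : ℝ) ≤ x * Real.log x ^ K := by
    intro i
    obtain ⟨j, _, hj⟩ := Finset.mem_image.1 i.2
    have : t' i = t j := hj.symm
    rw [this]
    exact htx j
  have hcnt : cnt t x = cnt t' x := by
    unfold cnt
    congr 1
    refine Finset.filter_congr fun n _ => ?_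
    constructor
    · intro h i
      obtain ⟨j, _, hj⟩ := Finset.mem_image.1 i.2
      have : t' i = t j := hj.symm
      rw [this]
      exact h j
    · intro h i
      exact h ⟨t i, Finset.mem_image_of_mem t (Finset.mem_univ i)⟩
  have hX : 0 ≤ x / Real.log x ^ S.card := by positivity
  rw [hcnt]
  have hCS : ∀ k ∈ Finset.range (r + 1), C k ≤ ∑ k ∈ Finset.range (r + 1), C k :=
    fun k hk => Finset.single_le_sum (fun i _ => (hC i).le) hk
  have hsum0 : 0 ≤ ∑ k ∈ Finset.range (r + 1), C k := Finset.sum_nonneg fun i _ => (hC i).le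
  by_cases hadm : ∀ p : ℕ, p.Prime → nuI t' p < p
  · have h4 := h1 S.card (Finset.mem_Icc.2 ⟨hk1, hkr⟩) {m // m ∈ S} t' hcard' ht'inj hadm ht'x
    refine h4.trans ?_
    apply mul_le_mul_of_nonneg_right _ hX
    apply mul_le_mul _ _ (by positivity) hsum.le
    · have := hCS S.card (Finset.mem_range.2 (by omega))
      have hr0 : (0 : ℝ) ≤ r := Nat.cast_nonneg r
      linarith
    · exact pow_le_pow_right₀ hll (by omega)
  · push Not at hadm
    obtain ⟨p, hp, hp2⟩ := hadm
    have h6 := count_inadm t' hp hp2 x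
    rw [hcard'] at h6
    have h7 : (cnt t' x : ℝ) ≤ r := by
      have : cnt t' x ≤ r := by
        refine le_trans ?_ hkr
        unfold cnt
        convert h6
      exact_mod_cast this
    refine h7.trans ?_
    have h8 : 1 ≤ x / Real.log x ^ S.card := by
      rw [le_div_iff₀ (by positivity), one_mul]
      exact (pow_le_pow_right₀ hlog1 hkr).trans h2
    have h9 : 1 ≤ Real.log (Real.log x) ^ r := one_le_pow₀ hll
    have hr0 : (0 : ℝ) ≤ r := Nat.cast_nonneg r
    calc (r : ℝ) = r * 1 * 1 := by ring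
      _ ≤ (r + ∑ k ∈ Finset.range (r + 1), C k) * Real.log (Real.log x) ^ r *
          (x / Real.log x ^ S.card) := by
          gcongr
          linarith

end Pool.Agent.AS
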