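import Mathlib

/-!
# Symmetric systems `Ψ(a_1) + … + Ψ(a_s) = Ψ(b_1) + … + Ψ(b_s)` in a finite set of integers
-/

set_option autoImplicit false

open Finset

namespace Pool.Agent.AS

open scoped Classical in
/-- The solutions in `A` of the symmetric system defined by `Ψ` with `s` unknowns on each side. -/
noncomputable def sol (s : ℕ) {G : Type} [AddCommGroup G] (Ψ : ℕ → G) (A : Finset ℕ) :
    Finset (Fin s ⊕ Fin s → ℕ) :=
  (Fintype.piFinset fun _ => A).filter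
    (fun a => ∑ i, Ψ (a (Sum.inl i)) = ∑ i, Ψ (a (Sum.inr i)))

/-- The form of the system. -/
noncomputable def JJ (s : ℕ) {G : Type} [AddCommGroup G] (Ψ : ℕ → G) (A : Finset ℕ)
    (f : ℕ → ℝ) : ℝ := ∑ a ∈ sol s Ψ A, ∏ l, f (a l)

lemma mem_sol {s : ℕ} {G : Type} [AddCommGroup G] {Ψ : ℕ → G} {A : Finset ℕ}
    {a : Fin s ⊕ Fin s → ℕ} : a ∈ sol s Ψ A ↔
      (∀ l, a l ∈ A) ∧ ∑ i, Ψ (a (Sum.inl i)) = ∑ i, Ψ (a (Sum.inr i)) := by
  unfold sol
  simp only [mem_filter, Fintype.mem_piFinset]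

end Pool.Agent.AS
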