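import Pool.Agent.Lib.AS.Defs

/-!
# Fourier formula for symmetric systems over a finite group; convexity

Sketch. `Γ` is a finite abelian group, `χ` runs over `AddChar Γ ℂ`.
`multi`: write the indicator of `∑ Ψ (a (inl i)) - ∑ Ψ (a (inr i)) = 0` as `(card Γ)⁻¹ ∑ χ, χ (…)`
(`AddChar.sum_apply_eq_ite`), use `AddChar.map_sub_eq_div`, `AddChar.map_neg_eq_inv`,
`AddChar.inv_apply_eq_conj`, `AddChar.map_sum_eq_prod` (or induction), exchange the sums and factor the sum over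
`Fintype.piFinset` as a product of sums (`Finset.prod_univ_sum`, `Fintype.prod_sum_type`).
`JJ_eq`: `multi` with all `g l = f`; `z ^ s * conj z ^ s = ‖z‖ ^ (2 s)`.
`JJ_convex`: `FF` is real linear in `f`, `‖·‖` is convex and `t ↦ t ^ (2 s)` is convex and increasing on `[0, ∞)`
(`convexOn_pow` and `pow_le_pow_left₀`, or `(convexOn_norm convex_univ).pow`).
-/

set_option autoImplicit false

open Finset

namespace Pool.Agent.AS

variable {Γ : Type} [AddCommGroup Γ] [Fintype Γ]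

/-- Fourier transform of the push forward of `f`. -/
noncomputable def FF (Ψ : ℕ → Γ) (A : Finset ℕ) (f : ℕ → ℝ) (χ : AddChar Γ ℂ) : ℂ :=
  ∑ a ∈ A, (f a : ℂ) * χ (Ψ a)

namespace FourierAux

lemma map_sum_prod {ι : Type*} (S : Finset ι) (χ : AddChar Γ ℂ) (v : ι → Γ) :
    χ (∑ i ∈ S, v i) = ∏ i ∈ S, χ (v i) := by
  classical
  induction S using Finset.induction_on with
  | empty => simp
  | insert a S ha ih => rw [sum_insert ha, prod_insert ha, AddChar.map_add_eq_mul, ih]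

open scoped ComplexConjugate in
lemma orth {s : ℕ} [DecidableEq Γ] (v w : Fin s → Γ) :
    ∑ χ : AddChar Γ ℂ, (∏ i, χ (v i)) * ∏ i, conj (χ (w i)) =
      if ∑ i, v i = ∑ i, w i then (Fintype.card Γ : ℂ) else 0 := by
  have h := AddChar.sum_apply_eq_ite (∑ i, v i - ∑ i, w i)
  simp only [sub_eq_zero] at h
  rw [← h]
  refine sum_congr rfl fun χ _ => ?_
  rw [sub_eq_add_neg, AddChar.map_add_eq_mul, AddChar.map_neg_eq_conj, map_sum_prod,
    map_sum_prod, map_prod]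

end FourierAux

open FourierAux

open scoped ComplexConjugate in
theorem multi (s : ℕ) (Ψ : ℕ → Γ) (A : Finset ℕ) (g : Fin s ⊕ Fin s → ℕ → ℝ) :
    ((∑ a ∈ sol s Ψ A, ∏ l, g l (a l) : ℝ) : ℂ)
      = (Fintype.card Γ : ℂ)⁻¹ * ∑ χ : AddChar Γ ℂ,
          (∏ i, FF Ψ A (g (Sum.inl i)) χ) * ∏ i, conj (FF Ψ A (g (Sum.inr i)) χ) := by
  classical
  have h2 : ∀ χ : AddChar Γ ℂ,
      (∏ i, FF Ψ A (g (Sum.inl i)) χ) * ∏ i, conj (FF Ψ A (g (Sum.inr i)) χ) =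
      ∑ a ∈ Fintype.piFinset (fun _ : Fin s ⊕ Fin s => A), (∏ l, (g l (a l) : ℂ)) *
        ((∏ i, χ (Ψ (a (Sum.inl i)))) * ∏ i, conj (χ (Ψ (a (Sum.inr i))))) := by
    intro χ
    have h3 : (∏ i, FF Ψ A (g (Sum.inl i)) χ) * ∏ i, conj (FF Ψ A (g (Sum.inr i)) χ) =
        ∏ l : Fin s ⊕ Fin s, ∑ n ∈ A, ((g l n : ℂ) *
          Sum.elim (fun _ => χ (Ψ n)) (fun _ => conj (χ (Ψ n))) l) := by
      rw [Fintype.prod_sum_type]
      unfold FF
      simp only [map_sum, map_mul, Complex.conj_ofReal, Sum.elim_inl, Sum.elim_inr]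
    rw [h3, Finset.prod_univ_sum]
    refine sum_congr rfl fun a _ => ?_
    rw [prod_mul_distrib]
    congr 1
    rw [Fintype.prod_sum_type]
    simp only [Sum.elim_inl, Sum.elim_inr]
  simp_rw [h2]
  rw [sum_comm]
  simp_rw [← mul_sum, orth]
  unfold sol
  rw [sum_filter]
  push_cast
  rw [mul_sum]
  refine sum_congr rfl fun a _ => ?_
  have hc : (Fintype.card Γ : ℂ) ≠ 0 := Nat.cast_ne_zero.2 Fintype.card_ne_zero
  split_ifs with h
  · rw [Complex.ofReal_prod]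
    field_simp
  · simp

theorem JJ_eq (s : ℕ) (Ψ : ℕ → Γ) (A : Finset ℕ) (f : ℕ → ℝ) :
    JJ s Ψ A f = (Fintype.card Γ : ℝ)⁻¹ * ∑ χ : AddChar Γ ℂ, ‖FF Ψ A f χ‖ ^ (2 * s) := by
  have h := multi s Ψ A (fun _ => f)
  unfold JJ
  apply Complex.ofReal_injective
  rw [h]
  push_cast
  congr 1
  refine sum_congr rfl fun χ _ => ?_
  rw [Finset.prod_const, Finset.prod_const, Finset.card_univ, Fintype.card_fin, ← mul_pow,
    Complex.mul_conj, Complex.normSq_eq_norm_sq]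
  push_cast
  rw [← pow_mul]

theorem JJ_convex (s : ℕ) (Ψ : ℕ → Γ) (A : Finset ℕ) (f g : ℕ → ℝ) (τ : ℝ) (h0 : 0 ≤ τ)
    (h1 : τ ≤ 1) :
    JJ s Ψ A (fun n => (1 - τ) * g n + τ * f n) ≤ (1 - τ) * JJ s Ψ A g + τ * JJ s Ψ A f := by
  rw [JJ_eq, JJ_eq, JJ_eq]
  have hc : (0 : ℝ) ≤ (Fintype.card Γ : ℝ)⁻¹ := by positivity
  have key : ∑ χ : AddChar Γ ℂ, ‖FF Ψ A (fun n => (1 - τ) * g n + τ * f n) χ‖ ^ (2 * s) ≤
      (1 - τ) * ∑ χ : AddChar Γ ℂ, ‖FF Ψ A g χ‖ ^ (2 * s) +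
        τ * ∑ χ : AddChar Γ ℂ, ‖FF Ψ A f χ‖ ^ (2 * s) := by
    rw [mul_sum, mul_sum, ← sum_add_distrib]
    refine sum_le_sum fun χ _ => ?_
    have e1 : FF Ψ A (fun n => (1 - τ) * g n + τ * f n) χ =
        ((1 - τ : ℝ) : ℂ) * FF Ψ A g χ + ((τ : ℝ) : ℂ) * FF Ψ A f χ := by
      unfold FF
      rw [mul_sum, mul_sum, ← sum_add_distrib]
      refine sum_congr rfl fun a _ => ?_
      push_cast
      ring
    have e2 : ‖FF Ψ A (fun n => (1 - τ) * g n + τ * f n) χ‖ ≤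
        (1 - τ) * ‖FF Ψ A g χ‖ + τ * ‖FF Ψ A f χ‖ := by
      rw [e1]
      refine (norm_add_le _ _).trans (le_of_eq ?_)
      rw [norm_mul, norm_mul, Complex.norm_real, Complex.norm_real, Real.norm_of_nonneg h0,
        Real.norm_of_nonneg (by linarith)]
    refine (pow_le_pow_left₀ (norm_nonneg _) e2 _).trans ?_
    have := (convexOn_pow (𝕜 := ℝ) (2 * s)).2 (Set.mem_Ici.2 (norm_nonneg (FF Ψ A g χ)))
      (Set.mem_Ici.2 (norm_nonneg (FF Ψ A f χ))) (by linarith : (0 : ℝ) ≤ 1 - τ) h0 (by ring)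
    simpa [smul_eq_mul] using this
  calc _ ≤ (Fintype.card Γ : ℝ)⁻¹ * ((1 - τ) * ∑ χ : AddChar Γ ℂ, ‖FF Ψ A g χ‖ ^ (2 * s) +
        τ * ∑ χ : AddChar Γ ℂ, ‖FF Ψ A f χ‖ ^ (2 * s)) := mul_le_mul_of_nonneg_left key hc
    _ = _ := by ring

end Pool.Agent.AS
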