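import Pool.Agent.Lib.AS.Fourier

/-!
# Solutions with two equal entries

Sketch. Let `0 ≤ f ≤ 1` on `A`, `P = ∑ a ∈ A, f a`, `s ≥ 1`. Fix `l ≠ l'`. For `c ∈ A` take `g l = f` at `c` and `0` elsewhere,
`g l' = 1` at `c` and `0` elsewhere, `g = f` for the other indices. Since `f c * f c ≤ f c`,
`∑ a ∈ sol, a l = a l', ∏ f (a l) ≤ ∑ c ∈ A, ∑ a ∈ sol, ∏ l, g l (a l)`. By `multi` (take norms, `‖χ‖ = 1`: `AddChar.norm_apply`)
each inner sum is at most `(card Γ)⁻¹ ∑ χ, f c * ‖FF Ψ A f χ‖ ^ (2 s - 2)`: the factors of `l` and `l'` have norms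
`f c` and `1`, the other `2 s - 2` factors have norm `‖FF Ψ A f χ‖` (conjugation does not change the norm).
So the left side is at most `(card Γ)⁻¹ ∑ χ, P * ‖FF χ‖ ^ (2 s - 2)`. Pointwise
`P * t ^ (2 s - 2) ≤ μ ^ (s - 1) * P ^ s + t ^ (2 s) / μ` for `t ≥ 0`: if `t ^ 2 ≤ μ P` the left side is at most the first term,
otherwise `P ≤ t ^ 2 / μ`. Sum over the `card Γ` characters (`AddChar.card_eq`) and use `JJ_eq`.
(For `s = 1` this reads `P + JJ / μ`.)
-/

set_option autoImplicit false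

open Finset

namespace Pool.Agent.AS

private theorem real_step {P t μ : ℝ} (hP : 0 ≤ P) (ht : 0 ≤ t) (hμ : 0 < μ) (s : ℕ) :
    P * t ^ (2 * s) ≤ μ ^ s * P ^ (s + 1) + t ^ (2 * (s + 1)) / μ := by
  rcases le_or_gt (t ^ 2) (μ * P) with h | h
  · have h1 : t ^ (2 * s) ≤ (μ * P) ^ s := by
      rw [pow_mul]
      exact pow_le_pow_left₀ (by positivity) h s
    have h2 : 0 ≤ t ^ (2 * (s + 1)) / μ := by positivity
    calc P * t ^ (2 * s) ≤ P * (μ * P) ^ s := mul_le_mul_of_nonneg_left h1 hP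
      _ = μ ^ s * P ^ (s + 1) := by rw [mul_pow, pow_succ]; ring
      _ ≤ _ := by linarith
  · have h1 : P ≤ t ^ 2 / μ := by
      rw [le_div_iff₀ hμ]
      linarith
    have h2 : 0 ≤ μ ^ s * P ^ (s + 1) := by positivity
    calc P * t ^ (2 * s) ≤ t ^ 2 / μ * t ^ (2 * s) :=
          mul_le_mul_of_nonneg_right h1 (by positivity)
      _ = t ^ (2 * (s + 1)) / μ := by rw [mul_add, pow_add]; ring
      _ ≤ _ := by linarith

open scoped Classical in
theorem pair_bound {Γ : Type} [AddCommGroup Γ] [Fintype Γ] (s : ℕ) (hs : 1 ≤ s) (Ψ : ℕ → Γ)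
    (A : Finset ℕ) (f : ℕ → ℝ) (hf : ∀ a ∈ A, 0 ≤ f a ∧ f a ≤ 1) (l l' : Fin s ⊕ Fin s)
    (hl : l ≠ l') {μ : ℝ} (hμ : 0 < μ) :
    ∑ a ∈ (sol s Ψ A).filter (fun a => a l = a l'), ∏ m, f (a m)
      ≤ μ ^ (s - 1) * (∑ a ∈ A, f a) ^ s + JJ s Ψ A f / μ := by
  obtain ⟨s, rfl⟩ := Nat.exists_eq_add_of_le' hs
  set P := ∑ a ∈ A, f a with hPdef
  have hP : 0 ≤ P := Finset.sum_nonneg fun a ha => (hf a ha).1
  set g : ℕ → Fin (s + 1) ⊕ Fin (s + 1) → ℕ → ℝ := fun c m n =>
    if m = l then (if n = c then f c else 0) else if m = l' then (if n = c then 1 else 0) else f n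
    with hg
  have hgnn : ∀ c ∈ A, ∀ m, ∀ n ∈ A, 0 ≤ g c m n := by
    intro c hc m n hn
    simp only [hg]
    split_ifs
    · exact (hf c hc).1
    · exact le_rfl
    · exact zero_le_one
    · exact le_rfl
    · exact (hf n hn).1
  -- step 1
  have step1 : ∑ a ∈ (sol (s + 1) Ψ A).filter (fun a => a l = a l'), ∏ m, f (a m) ≤
      ∑ c ∈ A, ∑ a ∈ sol (s + 1) Ψ A, ∏ m, g c m (a m) := by
    rw [Finset.sum_comm, Finset.sum_filter]
    refine Finset.sum_le_sum fun a ha => ?_
    have haA : ∀ m, a m ∈ A := (mem_sol.1 ha).1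
    have hnn : ∀ c ∈ A, 0 ≤ ∏ m, g c m (a m) := fun c hc =>
      Finset.prod_nonneg fun m _ => hgnn c hc m _ (haA m)
    split_ifs with h
    · refine le_trans ?_ (Finset.single_le_sum hnn (haA l))
      rw [← Finset.mul_prod_erase univ (fun m => f (a m)) (mem_univ l'),
        ← Finset.mul_prod_erase univ (fun m => g (a l) m (a m)) (mem_univ l')]
      have h1 : g (a l) l' (a l') = 1 := by
        simp only [hg, if_neg (Ne.symm hl), if_true, if_pos h.symm]
      have h2 : ∀ m ∈ univ.erase l', g (a l) m (a m) = f (a m) := by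
        intro m hm
        have hm' : m ≠ l' := Finset.ne_of_mem_erase hm
        simp only [hg]
        by_cases h3 : m = l
        · subst h3
          rw [if_pos rfl, if_pos rfl]
        · rw [if_neg h3, if_neg hm']
      rw [h1, Finset.prod_congr rfl h2]
      exact mul_le_mul_of_nonneg_right (hf _ (haA l')).2
        (Finset.prod_nonneg fun m _ => (hf _ (haA m)).1)
    · exact Finset.sum_nonneg hnn
  -- step 2
  have step2 : ∀ c ∈ A, ∑ a ∈ sol (s + 1) Ψ A, ∏ m, g c m (a m) ≤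
      (Fintype.card Γ : ℝ)⁻¹ * ∑ χ : AddChar Γ ℂ, f c * ‖FF Ψ A f χ‖ ^ (2 * s) := by
    intro c hc
    have h1 := multi (s + 1) Ψ A (g c)
    have h2 : ‖((∑ a ∈ sol (s + 1) Ψ A, ∏ m, g c m (a m) : ℝ) : ℂ)‖ ≤
        (Fintype.card Γ : ℝ)⁻¹ * ∑ χ : AddChar Γ ℂ, f c * ‖FF Ψ A f χ‖ ^ (2 * s) := by
      rw [h1, norm_mul, norm_inv, Complex.norm_natCast]
      refine mul_le_mul_of_nonneg_left ?_ (by positivity)
      refine (norm_sum_le _ _).trans (Finset.sum_le_sum fun χ _ => ?_)
      rw [norm_mul, norm_prod, norm_prod]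
      simp only [RCLike.norm_conj]
      rw [← Fintype.prod_sum_type (fun m => ‖FF Ψ A (g c m) χ‖),
        ← Finset.mul_prod_erase univ _ (mem_univ l),
        ← Finset.mul_prod_erase (univ.erase l) _ (Finset.mem_erase.2 ⟨Ne.symm hl, mem_univ l'⟩)]
      have hc1 : ∀ y : ℂ, ∑ a ∈ A, (((if a = c then (y.re : ℝ) else 0 : ℝ)) : ℂ) * χ (Ψ a) =
          (y.re : ℂ) * χ (Ψ c) := by
        intro y
        rw [Finset.sum_eq_single c]
        · rw [if_pos rfl]
        · intro b _ hb
          rw [if_neg hb, Complex.ofReal_zero, zero_mul]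
        · intro h
          exact absurd hc h
      have e1 : ‖FF Ψ A (g c l) χ‖ = f c := by
        have h3 : FF Ψ A (g c l) χ = (f c : ℂ) * χ (Ψ c) := by
          have := hc1 (f c : ℂ)
          simp only [Complex.ofReal_re] at this
          rw [← this]
          unfold FF
          refine Finset.sum_congr rfl fun a _ => ?_
          simp only [hg, if_true]
        rw [h3, norm_mul, AddChar.norm_apply, mul_one, Complex.norm_real, Real.norm_eq_abs,
          abs_of_nonneg (hf c hc).1]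
      have e2 : ‖FF Ψ A (g c l') χ‖ = 1 := by
        have h3 : FF Ψ A (g c l') χ = ((1 : ℝ) : ℂ) * χ (Ψ c) := by
          have := hc1 (1 : ℂ)
          simp only [Complex.one_re] at this
          rw [← this]
          unfold FF
          refine Finset.sum_congr rfl fun a _ => ?_
          simp only [hg, if_neg (Ne.symm hl), if_true]
        rw [h3, norm_mul, AddChar.norm_apply, mul_one, Complex.norm_real, Real.norm_eq_abs,
          abs_one]
      have e3 : ∀ m ∈ (univ.erase l).erase l', ‖FF Ψ A (g c m) χ‖ = ‖FF Ψ A f χ‖ := by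
        intro m hm
        rw [Finset.mem_erase, Finset.mem_erase] at hm
        have : g c m = f := by
          funext n
          simp only [hg]
          rw [if_neg hm.2.1, if_neg hm.1]
        rw [this]
      rw [e1, e2, Finset.prod_congr rfl e3, Finset.prod_const, one_mul]
      have e4 : ((univ.erase l).erase l').card = 2 * s := by
        rw [Finset.card_erase_of_mem (Finset.mem_erase.2 ⟨Ne.symm hl, mem_univ l'⟩),
          Finset.card_erase_of_mem (mem_univ l), Finset.card_univ, Fintype.card_sum,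
          Fintype.card_fin]
        omega
      rw [e4]
    refine le_trans ?_ h2
    rw [Complex.norm_real]
    exact le_abs_self _
  -- step 3
  have hcard : (Fintype.card (AddChar Γ ℂ) : ℝ) = Fintype.card Γ := by
    rw [AddChar.card_eq]
  have hΓ : (0 : ℝ) < Fintype.card Γ := by exact_mod_cast Fintype.card_pos
  have step3 : ∑ c ∈ A, ∑ a ∈ sol (s + 1) Ψ A, ∏ m, g c m (a m) ≤
      (Fintype.card Γ : ℝ)⁻¹ * ∑ χ : AddChar Γ ℂ, P * ‖FF Ψ A f χ‖ ^ (2 * s) := by
    refine (Finset.sum_le_sum step2).trans (le_of_eq ?_)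
    rw [← Finset.mul_sum, Finset.sum_comm]
    congr 1
    refine Finset.sum_congr rfl fun χ _ => ?_
    rw [← Finset.sum_mul]
  refine step1.trans (step3.trans ?_)
  have step4 : ∑ χ : AddChar Γ ℂ, P * ‖FF Ψ A f χ‖ ^ (2 * s) ≤
      ∑ χ : AddChar Γ ℂ, (μ ^ s * P ^ (s + 1) + ‖FF Ψ A f χ‖ ^ (2 * (s + 1)) / μ) :=
    Finset.sum_le_sum fun χ _ => real_step hP (norm_nonneg _) hμ s
  refine (mul_le_mul_of_nonneg_left step4 (by positivity)).trans (le_of_eq ?_)
  rw [JJ_eq, Finset.sum_add_distrib, Finset.sum_const, Finset.card_univ, nsmul_eq_mul, hcard,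
    ← Finset.sum_div, Nat.add_sub_cancel]
  field_simp

end Pool.Agent.AS
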