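import Pool.Agent.Lib.AS.Defs

/-!
# From an arbitrary abelian group to a finite one (residual finiteness)

Let `D` be the finite set of the nonzero differences `∑ Ψ (a (inl i)) - ∑ Ψ (a (inr i))`, `a` with entries in `A`.
For `g ∈ D` choose a character of the group which does not vanish at `g`; the product `Θ` of these characters maps
the subgroup generated by `Ψ a`, `a ∈ A`, onto a finitely generated torsion group, which is finite.
-/

set_option autoImplicit false

open Finset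

namespace Pool.Agent.AS

theorem torsion_circle (u : AddCircle (1 : ℚ)) : IsOfFinAddOrder u := by
  obtain ⟨q, rfl⟩ := QuotientAddGroup.mk_surjective u
  exact AddCircle.isOfFinAddOrder_iff_exists_rat_eq_div.2 ⟨q, by simp⟩

theorem torsion_prod {D : Type} [Finite D] (u : D → AddCircle (1 : ℚ)) : IsOfFinAddOrder u := by
  classical
  cases nonempty_fintype D
  choose n hn0 hn using fun d => isOfFinAddOrder_iff_nsmul_eq_zero.1 (torsion_circle (u d))
  refine isOfFinAddOrder_iff_nsmul_eq_zero.2 ⟨∏ d, n d, Finset.prod_pos fun d _ => hn0 d, ?_⟩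
  funext d
  obtain ⟨m, hm⟩ := Finset.dvd_prod_of_mem n (Finset.mem_univ d)
  simp only [Pi.smul_apply, Pi.zero_apply]
  rw [hm, mul_comm, mul_nsmul', hn d]
  simp

theorem transfer {G : Type} [AddCommGroup G] (s : ℕ) (Ψ : ℕ → G) (A : Finset ℕ) :
    ∃ (Γ : Type) (_ : AddCommGroup Γ) (_ : Fintype Γ) (Ψ' : ℕ → Γ), sol s Ψ' A = sol s Ψ A := by
  classical
  set dif : (Fin s ⊕ Fin s → ℕ) → G :=
    fun a => ∑ i, Ψ (a (Sum.inl i)) - ∑ i, Ψ (a (Sum.inr i)) with hdif
  set D : Finset G := ((Fintype.piFinset (fun _ : Fin s ⊕ Fin s => A)).image dif).filter (· ≠ 0)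
    with hD
  have hc : ∀ g : D, ∃ c : CharacterModule G, c g.1 ≠ 0 := fun g =>
    CharacterModule.exists_character_apply_ne_zero_of_ne_zero (mem_filter.1 g.2).2
  choose c hc using hc
  let Θ : G →+ (D → AddCircle (1 : ℚ)) :=
    AddMonoidHom.pi (fun g => (c g : G →+ AddCircle (1 : ℚ)))
  have hΘ : ∀ a g, Θ a g = c g a := fun a g => rfl
  let Γ : AddSubgroup (D → AddCircle (1 : ℚ)) :=
    AddSubgroup.closure (((A.image (fun a => Θ (Ψ a)) : Finset _) : Set (D → AddCircle (1 : ℚ))))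
  have hmem : ∀ a ∈ A, Θ (Ψ a) ∈ Γ := fun a ha =>
    AddSubgroup.subset_closure (mem_coe.2 (mem_image_of_mem _ ha))
  have hfg : AddGroup.FG Γ := (AddGroup.fg_iff_addSubgroup_fg Γ).2 ⟨_, rfl⟩
  have htor : IsAddTorsion Γ := by
    intro x
    obtain ⟨n, hn0, hn⟩ := isOfFinAddOrder_iff_nsmul_eq_zero.1
      (torsion_prod (x : D → AddCircle (1 : ℚ)))
    exact isOfFinAddOrder_iff_nsmul_eq_zero.2 ⟨n, hn0, Subtype.ext hn⟩
  have : Finite Γ := AddCommGroup.finite_of_fg_isAddTorsion _ htor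
  refine ⟨Γ, inferInstance, Fintype.ofFinite Γ,
    fun a => if h : a ∈ A then ⟨Θ (Ψ a), hmem a h⟩ else 0, ?_⟩
  ext a
  rw [mem_sol, mem_sol]
  refine and_congr_right fun ha => ?_
  have e1 : ∀ (f : Fin s → ℕ), (∀ i, f i ∈ A) →
      ((∑ i, (if h : f i ∈ A then (⟨Θ (Ψ (f i)), hmem _ h⟩ : Γ) else 0) : Γ) :
        D → AddCircle (1 : ℚ)) = Θ (∑ i, Ψ (f i)) := by
    intro f hf
    rw [map_sum, AddSubgroup.val_finsetSum]
    refine Finset.sum_congr rfl fun i _ => ?_
    rw [dif_pos (hf i)]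
  rw [← Subtype.coe_inj, e1 _ (fun i => ha _), e1 _ (fun i => ha _)]
  constructor
  · intro h
    by_contra hne
    have hd : dif a ∈ D := by
      rw [hD, mem_filter]
      exact ⟨mem_image_of_mem _ (Fintype.mem_piFinset.2 ha), fun h0 => hne (sub_eq_zero.1 h0)⟩
    apply hc ⟨dif a, hd⟩
    have h1 := congrFun h ⟨dif a, hd⟩
    rw [hΘ, hΘ] at h1
    show c ⟨dif a, hd⟩ (∑ i, Ψ (a (Sum.inl i)) - ∑ i, Ψ (a (Sum.inr i))) = 0
    rw [map_sub, h1, sub_self]
  · intro h
    rw [h]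

end Pool.Agent.AS
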