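import Pool.Agent.Lib.AS.Moment
import Pool.Agent.Lib.AS.Pair
import Pool.Agent.Lib.AS.Transfer
import Pool.Agent.Lib.NP.Convex

/-!
# The lower bound on average over the solutions of a symmetric system
-/

set_option autoImplicit false

open Finset Filter

namespace Pool.Agent.AS

open Pool.Agent.HL Pool.Agent.Lib.Sieve4 Pool.Agent.HLB Pool.Agent.HLD Pool.Agent.NP

section

variable {G : Type} [AddCommGroup G]

lemma JJ_nonneg (s : ℕ) (Ψ : ℕ → G) (A : Finset ℕ) {f : ℕ → ℝ} (hf : ∀ a ∈ A, 0 ≤ f a) :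
    0 ≤ JJ s Ψ A f :=
  Finset.sum_nonneg fun _ ha => Finset.prod_nonneg fun l _ => hf _ ((mem_sol.mp ha).1 l)

lemma JJ_le (s : ℕ) (Ψ : ℕ → G) (A : Finset ℕ) {f : ℕ → ℝ} (hf : ∀ a ∈ A, 0 ≤ f a) :
    JJ s Ψ A f ≤ (∑ a ∈ A, f a) ^ (2 * s) := by
  classical
  unfold JJ
  have h1 : ∑ a ∈ sol s Ψ A, ∏ l, f (a l)
      ≤ ∑ a ∈ Fintype.piFinset (fun _ : Fin s ⊕ Fin s => A), ∏ l, f (a l) := by
    refine Finset.sum_le_sum_of_subset_of_nonneg ?_ ?_
    · intro a ha
      exact Fintype.mem_piFinset.mpr (mem_sol.mp ha).1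
    · intro a ha _
      exact Finset.prod_nonneg fun l _ => hf _ (Fintype.mem_piFinset.mp ha l)
  refine h1.trans (le_of_eq ?_)
  have h2 := Finset.prod_univ_sum (fun _ : Fin s ⊕ Fin s => A) (fun _ a => f a)
  rw [← h2, Finset.prod_const, Finset.card_univ, Fintype.card_sum, Fintype.card_fin]
  congr 1
  ring

lemma JJ_convex' (s : ℕ) (Ψ : ℕ → G) (A : Finset ℕ) (f g : ℕ → ℝ) (τ : ℝ) (h0 : 0 ≤ τ)
    (h1 : τ ≤ 1) :
    JJ s Ψ A (fun n => (1 - τ) * g n + τ * f n) ≤ (1 - τ) * JJ s Ψ A g + τ * JJ s Ψ A f := by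
  obtain ⟨Γ, i1, i2, Ψ', h⟩ := transfer s Ψ A
  have h2 := JJ_convex s Ψ' A f g τ h0 h1
  unfold JJ at h2 ⊢
  rw [h] at h2
  exact h2

open scoped Classical in
lemma pair_bound' (s : ℕ) (hs : 1 ≤ s) (Ψ : ℕ → G)
    (A : Finset ℕ) (f : ℕ → ℝ) (hf : ∀ a ∈ A, 0 ≤ f a ∧ f a ≤ 1) (l l' : Fin s ⊕ Fin s)
    (hl : l ≠ l') {μ : ℝ} (hμ : 0 < μ) :
    ∑ a ∈ (sol s Ψ A).filter (fun a => a l = a l'), ∏ m, f (a m)
      ≤ μ ^ (s - 1) * (∑ a ∈ A, f a) ^ s + JJ s Ψ A f / μ := by
  obtain ⟨Γ, i1, i2, Ψ', h⟩ := transfer s Ψ A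
  have h2 := pair_bound s hs Ψ' A f hf l l' hl hμ
  unfold JJ at h2 ⊢
  rw [h] at h2
  exact h2

/-- The family of the solutions is convex. -/
lemma firstOrder_sol (s : ℕ) (Ψ : ℕ → G) (A : Finset ℕ) (w : ℕ → ℝ) :
    FirstOrder (fun a : {a // a ∈ sol s Ψ A} => ∏ l, w (a.1 l)) (fun a => a.1) := by
  refine firstOrder_of_convex _ _ fun f g _ _ τ h0 h1 => ?_
  have e : ∀ k : ℕ → ℝ, ∑ a : {a // a ∈ sol s Ψ A}, (∏ l, w (a.1 l)) * ∏ l, k (a.1 l)
      = JJ s Ψ A (fun n => w n * k n) := by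
    intro k
    unfold JJ
    rw [← Finset.sum_coe_sort (sol s Ψ A) (fun a => ∏ l, w (a l) * k (a l))]
    refine Finset.sum_congr rfl fun a _ => ?_
    rw [Finset.prod_mul_distrib]
  have e1 := e (fun m => (1 - τ) * g m + τ * f m)
  have e2 := e f
  have e3 := e g
  rw [e1, e2, e3]
  refine le_trans (le_of_eq ?_) (JJ_convex' s Ψ A (fun n => w n * f n) (fun n => w n * g n) τ h0 h1)
  congr 1
  funext n
  ring

open scoped Classical in
/-- Twice the degenerate part is at most the sum over the ordered pairs. -/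
lemma sol_union (s : ℕ) (Ψ : ℕ → G) (A : Finset ℕ) (g : (Fin s ⊕ Fin s → ℕ) → ℝ)
    (hg : ∀ a ∈ sol s Ψ A, 0 ≤ g a) :
    ∑ a ∈ (sol s Ψ A).filter (fun a => ¬ Function.Injective a), g a
      ≤ ∑ p ∈ (univ : Finset (Fin s ⊕ Fin s)).offDiag,
          ∑ a ∈ (sol s Ψ A).filter (fun a => a p.1 = a p.2), g a := by
  have h1 : ∑ p ∈ (univ : Finset (Fin s ⊕ Fin s)).offDiag,
          ∑ a ∈ (sol s Ψ A).filter (fun a => a p.1 = a p.2), g a
      = ∑ a ∈ sol s Ψ A,
          ((((univ : Finset (Fin s ⊕ Fin s)).offDiag.filter (fun p => a p.1 = a p.2)).card : ℕ) : ℝ)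
            * g a := by
    simp_rw [Finset.sum_filter]
    rw [Finset.sum_comm]
    refine Finset.sum_congr rfl fun a _ => ?_
    rw [← Finset.sum_filter, Finset.sum_const, nsmul_eq_mul]
  rw [h1, Finset.sum_filter]
  refine Finset.sum_le_sum fun a ha => ?_
  by_cases hinj : ¬ Function.Injective a
  · rw [if_pos hinj]
    unfold Function.Injective at hinj
    push Not at hinj
    obtain ⟨l, l', hll, hne⟩ := hinj
    have h2 : 0 < ((univ : Finset (Fin s ⊕ Fin s)).offDiag.filter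
        (fun p => a p.1 = a p.2)).card := by
      rw [Finset.card_pos]
      exact ⟨(l, l'), Finset.mem_filter.mpr ⟨Finset.mem_offDiag.mpr
        ⟨mem_univ _, mem_univ _, hne⟩, hll⟩⟩
    have h3 : (1:ℝ) ≤ ((((univ : Finset (Fin s ⊕ Fin s)).offDiag.filter
        (fun p => a p.1 = a p.2)).card : ℕ) : ℝ) := by exact_mod_cast h2
    calc g a = 1 * g a := (one_mul _).symm
      _ ≤ _ := mul_le_mul_of_nonneg_right h3 (hg a ha)
  · rw [if_neg hinj]
    exact mul_nonneg (Nat.cast_nonneg _) (hg a ha)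

end

/-- `(log log x)^s / (log x)^ε' → 0`. -/
lemma loglog_small (s : ℕ) {ε' : ℝ} (hε' : 0 < ε') {c : ℝ} (hc : 0 < c) :
    ∀ᶠ x : ℕ in atTop, Real.log (Real.log x) ^ s ≤ c * Real.log x ^ ε' := by
  have h1 : ∀ᶠ u : ℝ in atTop, Real.log u ^ s ≤ c * u ^ ε' := by
    have h2 := (isLittleO_log_rpow_atTop (r := ε' / (s + 1)) (by positivity)).bound
      (c := 1) one_pos
    have h3 : ∀ᶠ u : ℝ in atTop, 1 / c ≤ u ^ (ε' / (s + 1)) :=
      (tendsto_rpow_atTop (by positivity)).eventually_ge_atTop _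
    filter_upwards [h2, h3, eventually_ge_atTop 1] with u hu hu3 hu1
    have hlog : 0 ≤ Real.log u := Real.log_nonneg hu1
    rw [Real.norm_of_nonneg hlog, Real.norm_of_nonneg (by positivity), one_mul] at hu
    have hu0 : 0 < u := by linarith
    have h4 : Real.log u ^ s ≤ (u ^ (ε' / (s + 1))) ^ s := pow_le_pow_left₀ hlog hu s
    have h5 : u ^ ε' = (u ^ (ε' / (s + 1))) ^ s * u ^ (ε' / (s + 1)) := by
      rw [← pow_succ, ← Real.rpow_natCast, ← Real.rpow_mul hu0.le]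
      congr 1
      push_cast
      field_simp
    rw [h5]
    have h6 : 1 ≤ c * u ^ (ε' / (s + 1)) := by
      have := mul_le_mul_of_nonneg_left hu3 hc.le
      rwa [mul_one_div_cancel hc.ne'] at this
    calc Real.log u ^ s ≤ (u ^ (ε' / (s + 1))) ^ s * 1 := by rw [mul_one]; exact h4
      _ ≤ (u ^ (ε' / (s + 1))) ^ s * (c * u ^ (ε' / (s + 1))) :=
          mul_le_mul_of_nonneg_left h6 (by positivity)
      _ = c * ((u ^ (ε' / (s + 1))) ^ s * u ^ (ε' / (s + 1))) := by ring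
  exact (Real.tendsto_log_atTop.comp tendsto_natCast_atTop_atTop).eventually h1

open scoped Classical in
theorem sol_lower (hSW : SW) (s K0 : ℕ) (hs : 1 ≤ s) {ε ε' : ℝ} (hε : 0 < ε) (hε' : 0 < ε') :
    ∀ᶠ x : ℕ in atTop, ∀ (G : Type) [AddCommGroup G] (Ψ : ℕ → G) (A : Finset ℕ) (w : ℕ → ℝ),
      (∀ a ∈ A, (a : ℝ) ≤ x * Real.log x ^ K0) → (∀ a ∈ A, 0 ≤ w a ∧ w a ≤ 1) →
      (∑ a ∈ A, w a) ^ s * Real.log x ^ ((s : ℝ) + ε') ≤ JJ s Ψ A w →
      (1 - ε) * ((x / Real.log x ^ (2 * s)) *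
          ∑ a ∈ (sol s Ψ A).filter Function.Injective, (∏ l, w (a l)) * SI a)
        ≤ ∑ a ∈ (sol s Ψ A).filter Function.Injective, (∏ l, w (a l)) * (cnt a x : ℝ) ∧
      (1 - ε) * ((x / Real.log x ^ (2 * s)) * JJ s Ψ A w)
        ≤ ∑ a ∈ (sol s Ψ A).filter Function.Injective, (∏ l, w (a l)) * (cnt a x : ℝ) := by
  set c : ℝ := 1 - min (ε / 8) (1 / 2) with hc
  have hm0 : 0 < min (ε / 8) (1 / 2 : ℝ) := by positivity
  have hm1 : min (ε / 8) (1 / 2 : ℝ) ≤ ε / 8 := min_le_left _ _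
  have hm2 : min (ε / 8) (1 / 2 : ℝ) ≤ 1 / 2 := min_le_right _ _
  have hc0 : 0 < c := by linarith
  have hc2 : 1 / 2 ≤ c := by linarith
  have hs0 : (0:ℝ) < s := by exact_mod_cast hs
  obtain ⟨C, hC, hmom⟩ := moment_bound s K0 hs
  set Q : ℝ := (2 * s) ^ 2 with hQ
  have hQ0 : 0 < Q := by positivity
  set μ : ℝ := 16 * Q / ε with hμ
  have hμ0 : 0 < μ := by positivity
  filter_upwards [family_lower_aux hSW (2 * s) K0 (by omega) (ε := min (ε / 8) (1 / 2)) hm0,
    sing_tail3 (2 * s) (2 * s) K0 (by omega) (ε := ε / 4) (by positivity), hmom,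
    loglog_small s hε' (c := ε / (32 * Q * μ ^ (s - 1) * C)) (by positivity),
    eventually_ge_atTop 3] with x hx1 hx3 hx5 hx6 hx4
  intro G _ Ψ A w hA hw hJ
  have hx3R : (3:ℝ) ≤ x := by exact_mod_cast hx4
  have hxpos : (0:ℝ) < x := by linarith only [hm0, hm2, hx3R]
  have hL1 : 1 ≤ Real.log x := by
    rw [Real.le_log_iff_exp_le hxpos]
    have := Real.exp_one_lt_d9
    linarith only [hm0, hm2, hx3R, this]
  have hLpos : 0 < Real.log x := by linarith only [hm0, hm2, hL1]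
  have hw0 : ∀ a ∈ A, 0 ≤ w a := fun a ha => (hw a ha).1
  have hcardι : Fintype.card (Fin s ⊕ Fin s) = 2 * s := by
    rw [Fintype.card_sum, Fintype.card_fin]; ring
  have hP0 : ∀ a ∈ sol s Ψ A, 0 ≤ ∏ l, w (a l) := fun a ha =>
    Finset.prod_nonneg fun l _ => hw0 _ ((mem_sol.mp ha).1 l)
  have hfo := firstOrder_sol s Ψ A w
  have h1 := hx1 {a // a ∈ sol s Ψ A} (Fin s ⊕ Fin s) (fun a => ∏ l, w (a.1 l)) (fun a => a.1)
    hcardι (fun a => hP0 a.1 a.2) (fun a l => hA _ ((mem_sol.mp a.2).1 l)) hfo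
  have hpd := family_posdef (fun a : {a // a ∈ sol s Ψ A} => ∏ l, w (a.1 l)) (fun a => a.1) hfo
    (zz (2 * s) x)
  rw [← hc] at h1
  set z := zz (2 * s) x with hz
  rw [Finset.sum_coe_sort (sol s Ψ A) (fun a => (∏ l, w (a l)) * SZ z a),
    Finset.sum_coe_sort (sol s Ψ A) (fun a => (∏ l, w (a l)) * (cnt a x : ℝ))] at h1
  rw [Finset.sum_coe_sort (sol s Ψ A) (fun a => (∏ l, w (a l))),
    Finset.sum_coe_sort (sol s Ψ A) (fun a => (∏ l, w (a l)) * SZ z a)] at hpd
  set Xx : ℝ := x / Real.log x ^ (2 * s) with hX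
  have hXpos : 0 < Xx := by (clear * - hx4 hL1; positivity)
  set Gs : ℝ := ∑ a ∈ sol s Ψ A, (∏ l, w (a l)) * SZ z a with hG
  have hWdef : JJ s Ψ A w = ∑ a ∈ sol s Ψ A, ∏ l, w (a l) := rfl
  set Wt : ℝ := JJ s Ψ A w with hWt
  rw [← hWdef] at hpd
  set I := (sol s Ψ A).filter Function.Injective with hI
  set Φ : ℝ := ∑ a ∈ sol s Ψ A, (∏ l, w (a l)) * (cnt a x : ℝ) with hΦ
  have hWt0 : 0 ≤ Wt := JJ_nonneg s Ψ A hw0
  have hG0 : 0 ≤ Gs := hWt0.trans hpd
  have hXG : 0 ≤ Xx * Gs := by (clear * - hx4 hL1 hG0; positivity)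
  have hΦ0 : 0 ≤ Φ := le_trans (by (clear * - hc0 hx4 hL1 hG0; positivity)) h1
  -- the degenerate solutions
  set M : ℝ := ∑ a ∈ A, w a with hM
  have hM0 : 0 ≤ M := Finset.sum_nonneg hw0
  have ecnt : ∀ B ⊆ sol s Ψ A,
      ∑ n ∈ Icc 1 x, ∑ a ∈ B, ∏ l, (w (a l) * ip (n + a l))
      = ∑ a ∈ B, (∏ l, w (a l)) * (cnt a x : ℝ) := by
    intro B _
    rw [Finset.sum_comm]
    refine Finset.sum_congr rfl fun a _ => ?_
    rw [cnt_eq, Finset.mul_sum]
    refine Finset.sum_congr rfl fun n _ => ?_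
    rw [Finset.prod_mul_distrib]
  have hdeg : ∑ a ∈ (sol s Ψ A).filter (fun a => ¬ Function.Injective a),
      (∏ l, w (a l)) * (cnt a x : ℝ) ≤ ε / 8 * Φ := by
    rcases hM0.eq_or_lt with hMz | hMpos
    · -- all weights vanish
      have hwz : ∀ a ∈ A, w a = 0 := fun a ha =>
        (Finset.sum_eq_zero_iff_of_nonneg hw0).mp hMz.symm a ha
      have h2 : ∑ a ∈ (sol s Ψ A).filter (fun a => ¬ Function.Injective a),
          (∏ l, w (a l)) * (cnt a x : ℝ) = 0 := by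
        refine Finset.sum_eq_zero fun a ha => ?_
        have h3 : w (a (Sum.inl ⟨0, hs⟩)) = 0 :=
          hwz _ ((mem_sol.mp (mem_filter.mp ha).1).1 _)
        have h4 : ∏ l, w (a l) = 0 :=
          Finset.prod_eq_zero (mem_univ (Sum.inl (⟨0, hs⟩ : Fin s))) h3
        rw [h4, zero_mul]
      rw [h2]
      (clear * - hε hΦ0; positivity)
    · have hLM : Real.log x ≤ M := by
        have h2 : M ^ s * Real.log x ^ ((s : ℝ) + ε') ≤ M ^ s * M ^ s := by
          refine hJ.trans ((JJ_le s Ψ A hw0).trans (le_of_eq ?_))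
          rw [← hM, ← pow_add]
          congr 1
          ring
        have h3 : Real.log x ^ ((s : ℝ) + ε') ≤ M ^ s := le_of_mul_le_mul_left h2 (by (clear * - hMpos; positivity))
        have h4 : Real.log x ^ s ≤ M ^ s := by
          refine le_trans ?_ h3
          rw [← Real.rpow_natCast]
          exact Real.rpow_le_rpow_of_exponent_le hL1 (by linarith only [hε'])
        exact le_of_pow_le_pow_left₀ (by omega) hM0 h4
      have hmm := hx5 A w hA hw hLM
      -- the pairs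
      have hpair : ∀ p ∈ (univ : Finset (Fin s ⊕ Fin s)).offDiag,
          ∑ a ∈ (sol s Ψ A).filter (fun a => a p.1 = a p.2), (∏ l, w (a l)) * (cnt a x : ℝ)
            ≤ ε / (8 * Q) * Φ := by
        intro p hp
        rw [Finset.mem_offDiag] at hp
        rw [← ecnt _ (Finset.filter_subset _ _)]
        have h2 : ∀ n ∈ Icc 1 x, ∑ a ∈ (sol s Ψ A).filter (fun a => a p.1 = a p.2),
            ∏ l, (w (a l) * ip (n + a l))
            ≤ μ ^ (s - 1) * (∑ a ∈ A, w a * ip (n + a)) ^ s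
              + JJ s Ψ A (fun a => w a * ip (n + a)) / μ := by
          intro n _
          exact pair_bound' s hs Ψ A (fun a => w a * ip (n + a))
            (fun a ha => ⟨mul_nonneg (hw0 a ha) (ip_nonneg _),
              mul_le_one₀ (hw a ha).2 (ip_nonneg _) (ip_le_one _)⟩) p.1 p.2 hp.2.2 hμ0
        refine (Finset.sum_le_sum h2).trans ?_
        rw [Finset.sum_add_distrib, ← Finset.mul_sum, ← Finset.sum_div]
        have h3 : ∑ n ∈ Icc 1 x, JJ s Ψ A (fun a => w a * ip (n + a)) = Φ :=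
          ecnt _ (Finset.Subset.refl _)
        rw [h3]
        -- first term
        have h4 : (x:ℝ) * (M / Real.log x) ^ s ≤ 2 * Φ * Real.log x ^ (-ε') := by
          have h5 : M ^ s ≤ Wt * Real.log x ^ (-((s : ℝ) + ε')) := by
            rw [Real.rpow_neg hLpos.le, ← div_eq_mul_inv, le_div_iff₀ (by (clear * - hL1; positivity))]
            exact hJ
          have h6 : Xx * Wt ≤ 2 * Φ := by
            have h7 : Xx * Wt ≤ Xx * Gs := mul_le_mul_of_nonneg_left hpd hXpos.le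
            nlinarith only [hm2, h1, hXG, h7]
          calc (x:ℝ) * (M / Real.log x) ^ s = x / Real.log x ^ s * M ^ s := by
                rw [div_pow]; ring
            _ ≤ x / Real.log x ^ s * (Wt * Real.log x ^ (-((s : ℝ) + ε'))) := by gcongr
            _ = (Xx * Wt) * Real.log x ^ (-ε') := by
                rw [hX, neg_add, Real.rpow_add hLpos, Real.rpow_neg hLpos.le (s : ℝ),
                  Real.rpow_natCast, two_mul, pow_add]
                field_simp
            _ ≤ (2 * Φ) * Real.log x ^ (-ε') :=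
                mul_le_mul_of_nonneg_right h6 (by (clear * - hL1; positivity))
        have h8 : ∑ n ∈ Icc 1 x, (∑ a ∈ A, w a * ip (n + a)) ^ s
            ≤ C * (ε / (32 * Q * μ ^ (s - 1) * C)) * (2 * Φ) := by
          refine hmm.trans ?_
          have h9 : C * Real.log (Real.log x) ^ s * (x * (M / Real.log x) ^ s)
              ≤ C * ((ε / (32 * Q * μ ^ (s - 1) * C)) * Real.log x ^ ε')
                * (2 * Φ * Real.log x ^ (-ε')) := by
            have h10 : (0:ℝ) ≤ x * (M / Real.log x) ^ s := by (clear * - hx4 hL1 hMpos; positivity)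
            refine mul_le_mul (mul_le_mul_of_nonneg_left hx6 hC.le) h4 h10 (by (clear * - hs hε hC hL1; positivity))
          refine h9.trans (le_of_eq ?_)
          rw [Real.rpow_neg hLpos.le]
          have h11 : Real.log x ^ ε' ≠ 0 := (Real.rpow_pos_of_pos hLpos _).ne'
          field_simp
        have h12 : μ ^ (s - 1) * (C * (ε / (32 * Q * μ ^ (s - 1) * C)) * (2 * Φ))
            = ε / (16 * Q) * Φ := by
          have : μ ^ (s - 1) ≠ 0 := (pow_pos hμ0 _).ne'
          field_simp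
          ring
        have h13 : Φ / μ = ε / (16 * Q) * Φ := by
          rw [hμ]
          field_simp
        calc μ ^ (s - 1) * ∑ n ∈ Icc 1 x, (∑ a ∈ A, w a * ip (n + a)) ^ s + Φ / μ
            ≤ μ ^ (s - 1) * (C * (ε / (32 * Q * μ ^ (s - 1) * C)) * (2 * Φ)) + Φ / μ := by
              have := mul_le_mul_of_nonneg_left h8 (by (clear * - hs hε; positivity) : 0 ≤ μ ^ (s - 1))
              linarith only [this]
          _ = ε / (8 * Q) * Φ := by
              rw [h12, h13]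
              field_simp
              ring
      have h14 := sol_union s Ψ A (fun a => (∏ l, w (a l)) * (cnt a x : ℝ))
        (fun a ha => mul_nonneg (hP0 a ha) (Nat.cast_nonneg _))
      refine h14.trans ((Finset.sum_le_sum hpair).trans ?_)
      rw [Finset.sum_const, nsmul_eq_mul]
      have h15 : ((((univ : Finset (Fin s ⊕ Fin s)).offDiag).card : ℕ) : ℝ) ≤ Q := by
        rw [Finset.offDiag_card, Finset.card_univ, hcardι, hQ]
        have h16 : (2 * s * (2 * s) - 2 * s : ℕ) ≤ (2 * s) ^ 2 := by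
          rw [pow_two]; exact Nat.sub_le _ _
        exact_mod_cast h16
      calc _ ≤ Q * (ε / (8 * Q) * Φ) := by gcongr
        _ = ε / 8 * Φ := by field_simp
  have hsplit : Φ
      = ∑ a ∈ I, (∏ l, w (a l)) * (cnt a x : ℝ)
        + ∑ a ∈ (sol s Ψ A).filter (fun a => ¬ Function.Injective a),
            (∏ l, w (a l)) * (cnt a x : ℝ) := by
    rw [hI, hΦ, Finset.sum_filter_add_sum_filter_not]
  have hI0 : 0 ≤ ∑ a ∈ I, (∏ l, w (a l)) * (cnt a x : ℝ) :=
    Finset.sum_nonneg fun a ha => mul_nonneg (hP0 a (mem_filter.mp ha).1) (Nat.cast_nonneg _)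
  have hinjG : ∑ a ∈ I, (∏ l, w (a l)) * SI a ≤ (1 + ε / 4) * Gs := by
    have h3 : ∑ a ∈ I, (∏ l, w (a l)) * SI a
        ≤ ∑ a ∈ I, (∏ l, w (a l)) * ((1 + ε / 4) * SZ z a) := by
      refine Finset.sum_le_sum fun a ha => ?_
      rw [hI, mem_filter] at ha
      refine mul_le_mul_of_nonneg_left ?_ (hP0 a ha.1)
      exact hx3 (Fin s ⊕ Fin s) a hcardι ha.2 (fun l => hA _ ((mem_sol.mp ha.1).1 l))
    refine h3.trans ?_
    have h4 : ∑ a ∈ I, (∏ l, w (a l)) * ((1 + ε / 4) * SZ z a)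
        = (1 + ε / 4) * ∑ a ∈ I, (∏ l, w (a l)) * SZ z a := by
      rw [Finset.mul_sum]
      exact Finset.sum_congr rfl fun a _ => by ring
    rw [h4]
    refine mul_le_mul_of_nonneg_left ?_ (by (clear * - hε; positivity))
    exact Finset.sum_le_sum_of_subset_of_nonneg (Finset.filter_subset _ _)
      fun a ha _ => mul_nonneg (hP0 a ha) (SZ_nonneg _ _)
  rcases le_or_gt (1 - ε) 0 with hneg | hpos'
  · constructor
    · refine le_trans (mul_nonpos_of_nonpos_of_nonneg hneg (mul_nonneg hXpos.le ?_)) hI0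
      refine Finset.sum_nonneg fun a ha => ?_
      rw [hI, mem_filter] at ha
      exact mul_nonneg (hP0 a ha.1) (SI_nonneg _ ha.2)
    · exact le_trans (mul_nonpos_of_nonpos_of_nonneg hneg (by (clear * - hx4 hL1 hWt0; positivity))) hI0
  · have hmainI : (1 - ε / 2) * (Xx * Gs) ≤ ∑ a ∈ I, (∏ l, w (a l)) * (cnt a x : ℝ) := by
      have h5 : (1 - ε / 8) * Φ ≤ ∑ a ∈ I, (∏ l, w (a l)) * (cnt a x : ℝ) := by linarith only [hdeg, hsplit]
      have h6 : (1 - ε / 8) * ((1 - ε / 8) * (Xx * Gs)) ≤ (1 - ε / 8) * Φ := by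
        refine mul_le_mul_of_nonneg_left ?_ (by linarith only [hm0, hm1, hpos'])
        refine le_trans (mul_le_mul_of_nonneg_right ?_ hXG) h1
        linarith only [hm1]
      have h7 : (1 - ε / 2) * (Xx * Gs) ≤ (1 - ε / 8) * ((1 - ε / 8) * (Xx * Gs)) := by
        have : (1 - ε / 2) ≤ (1 - ε / 8) * (1 - ε / 8) := by nlinarith only [hε, hm0, hm1]
        calc (1 - ε / 2) * (Xx * Gs) ≤ ((1 - ε / 8) * (1 - ε / 8)) * (Xx * Gs) :=
              mul_le_mul_of_nonneg_right this hXG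
          _ = _ := by ring
      linarith only [hdeg, hsplit, h6, h7]
    constructor
    · calc (1 - ε) * (Xx * ∑ a ∈ I, (∏ l, w (a l)) * SI a)
          ≤ (1 - ε) * (Xx * ((1 + ε / 4) * Gs)) := by gcongr
        _ = ((1 - ε) * (1 + ε / 4)) * (Xx * Gs) := by ring
        _ ≤ (1 - ε / 2) * (Xx * Gs) := by
            refine mul_le_mul_of_nonneg_right ?_ (by (clear * - hx4 hL1 hG0; positivity))
            nlinarith only [hε, hm0, hm1]
        _ ≤ _ := hmainI
    · calc (1 - ε) * (Xx * Wt) ≤ (1 - ε) * (Xx * Gs) := by gcongr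
        _ ≤ (1 - ε / 2) * (Xx * Gs) := by
            refine mul_le_mul_of_nonneg_right (by linarith only [hm0, hm1]) (by (clear * - hx4 hL1 hG0; positivity))
        _ ≤ _ := hmainI

end Pool.Agent.AS
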