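import Pool.Agent.Lib.AS.CntBound

/-!
# Moments of the number of primes in `n + A`

Sketch. Expand the power (`Finset.sum_pow'` or `Finset.prod_univ_sum`):
`∑ n, (∑ a ∈ A, w a * ip (n + a)) ^ s = ∑ a ∈ A^s, (∏ w (a i)) * cnt a x` (`cnt_eq`), and `cnt_upper_all` bounds this by
`C (log log x)^s x ∑ a ∈ A^s, (∏ w (a i)) / L^(number of distinct entries)`, `L = log x`. `comb`: with `M = ∑ w ≥ L`
`∑ a ∈ A^s, (∏ w (a i)) * L^(s - #distinct) ≤ (s M)^s` by induction on `s` (`Fin.cons` / `Fintype.piFinset`
over `Fin (s+1)`): the last entry either is one of the at most `s` earlier values (total weight at most `s`, factor `L ≤ M`)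
or is new (total weight at most `M`), so the sum grows by a factor at most `M + s L ≤ (s + 1) M`.
-/

set_option autoImplicit false

open Finset Filter

namespace Pool.Agent.AS

open Pool.Agent.HLB Pool.Agent.HLD Pool.Agent.Lib.Sieve4

namespace MomentAux

theorem sum_cons (s : ℕ) (A : Finset ℕ) (F : (Fin (s + 1) → ℕ) → ℝ) :
    ∑ a ∈ Fintype.piFinset (fun _ : Fin (s + 1) => A), F a =
      ∑ t ∈ Fintype.piFinset (fun _ : Fin s => A), ∑ b ∈ A, F (Fin.cons b t) := by
  rw [← Finset.sum_product']
  refine Finset.sum_bij' (fun a _ => (Fin.tail a, a 0)) (fun q _ => Fin.cons q.2 q.1) ?_ ?_ ?_ ?_ ?_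
  · intro a ha
    rw [Fintype.mem_piFinset] at ha
    rw [Finset.mem_product, Fintype.mem_piFinset]
    exact ⟨fun i => ha i.succ, ha 0⟩
  · intro q hq
    rw [Finset.mem_product, Fintype.mem_piFinset] at hq
    rw [Fintype.mem_piFinset]
    intro i
    refine Fin.cases ?_ ?_ i
    · exact hq.2
    · intro j
      exact hq.1 j
  · intro a _
    exact Fin.cons_self_tail a
  · intro q _
    simp
  · intro a _
    rw [Fin.cons_self_tail]

theorem image_cons (s : ℕ) (b : ℕ) (t : Fin s → ℕ) :
    univ.image (Fin.cons b t : Fin (s + 1) → ℕ) = insert b (univ.image t) := by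
  ext c
  simp only [mem_image, mem_univ, true_and, mem_insert]
  constructor
  · rintro ⟨i, rfl⟩
    refine Fin.cases ?_ ?_ i
    · left; simp
    · intro j
      right
      exact ⟨j, by simp⟩
  · rintro (h | ⟨j, hj⟩)
    · exact ⟨0, by simp [h]⟩
    · exact ⟨j.succ, by simp [hj]⟩

theorem prod_w_nonneg {s : ℕ} {A : Finset ℕ} {w : ℕ → ℝ} (hw : ∀ a ∈ A, 0 ≤ w a ∧ w a ≤ 1)
    {t : Fin s → ℕ} (ht : t ∈ Fintype.piFinset (fun _ : Fin s => A)) : 0 ≤ ∏ i, w (t i) :=
  Finset.prod_nonneg fun i _ => (hw _ (Fintype.mem_piFinset.1 ht i)).1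

end MomentAux

open MomentAux

theorem comb (s : ℕ) (A : Finset ℕ) (w : ℕ → ℝ) (hw : ∀ a ∈ A, 0 ≤ w a ∧ w a ≤ 1) {L : ℝ}
    (hL : 1 ≤ L) (hLM : L ≤ ∑ a ∈ A, w a) :
    ∑ a ∈ Fintype.piFinset (fun _ : Fin s => A), (∏ i, w (a i)) * L ^ (s - (univ.image a).card)
      ≤ ((s : ℝ) * ∑ a ∈ A, w a) ^ s := by
  classical
  set M : ℝ := ∑ a ∈ A, w a with hM
  have hM0 : 0 ≤ M := by linarith
  have hL0 : 0 ≤ L := by linarith
  induction s with
  | zero => simp
  | succ s ih =>
    rw [sum_cons]
    have h1 : ∀ t ∈ Fintype.piFinset (fun _ : Fin s => A),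
        ∑ b ∈ A, (∏ i, w ((Fin.cons b t : Fin (s + 1) → ℕ) i)) *
            L ^ (s + 1 - (univ.image (Fin.cons b t : Fin (s + 1) → ℕ)).card)
          ≤ (((s + 1 : ℕ) : ℝ) * M) * ((∏ i, w (t i)) * L ^ (s - (univ.image t).card)) := by
      intro t ht
      have hw0 := prod_w_nonneg hw ht
      have hd : (univ.image t).card ≤ s := by
        have := Finset.card_image_le (s := (Finset.univ : Finset (Fin s))) (f := t)
        simpa using this
      set I := univ.image t with hI
      have h2 : ∀ b, (∏ i, w ((Fin.cons b t : Fin (s + 1) → ℕ) i)) *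
            L ^ (s + 1 - (univ.image (Fin.cons b t : Fin (s + 1) → ℕ)).card) =
          (∏ i, w (t i)) * (w b * L ^ (s + 1 - (insert b I).card)) := by
        intro b
        rw [image_cons, Fin.prod_univ_succ]
        simp only [Fin.cons_zero, Fin.cons_succ]
        ring
      rw [Finset.sum_congr rfl fun b _ => h2 b, ← Finset.mul_sum]
      have h3 : ∑ b ∈ A, w b * L ^ (s + 1 - (insert b I).card) ≤
          (s * L + M) * L ^ (s - I.card) := by
        rw [← Finset.sum_filter_add_sum_filter_not A (fun b => b ∈ I)]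
        have h4 : ∑ b ∈ A.filter (fun b => b ∈ I), w b * L ^ (s + 1 - (insert b I).card) ≤
            (s * L) * L ^ (s - I.card) := by
          calc _ ≤ ∑ b ∈ A.filter (fun b => b ∈ I), L * L ^ (s - I.card) := by
                apply Finset.sum_le_sum
                intro b hb
                rw [Finset.mem_filter] at hb
                rw [Finset.insert_eq_of_mem hb.2, Nat.succ_sub hd, pow_succ']
                have h5 : 0 ≤ L * L ^ (s - I.card) := by positivity
                have := (hw b hb.1).2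
                nlinarith
            _ = ((A.filter (fun b => b ∈ I)).card : ℝ) * (L * L ^ (s - I.card)) := by
                rw [Finset.sum_const, nsmul_eq_mul]
            _ ≤ (s : ℝ) * (L * L ^ (s - I.card)) := by
                apply mul_le_mul_of_nonneg_right _ (by positivity)
                have h6 : (A.filter (fun b => b ∈ I)).card ≤ I.card := by
                  apply Finset.card_le_card
                  intro b hb
                  exact (Finset.mem_filter.1 hb).2
                exact_mod_cast h6.trans hd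
            _ = (s * L) * L ^ (s - I.card) := by ring
        have h7 : ∑ b ∈ A.filter (fun b => ¬ b ∈ I), w b * L ^ (s + 1 - (insert b I).card) ≤
            M * L ^ (s - I.card) := by
          calc _ = ∑ b ∈ A.filter (fun b => ¬ b ∈ I), w b * L ^ (s - I.card) := by
                apply Finset.sum_congr rfl
                intro b hb
                rw [Finset.mem_filter] at hb
                rw [Finset.card_insert_of_notMem hb.2]
                congr 2
                omega
            _ = (∑ b ∈ A.filter (fun b => ¬ b ∈ I), w b) * L ^ (s - I.card) := by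
                rw [Finset.sum_mul]
            _ ≤ M * L ^ (s - I.card) := by
                apply mul_le_mul_of_nonneg_right _ (by positivity)
                apply Finset.sum_le_sum_of_subset_of_nonneg (Finset.filter_subset _ _)
                intro b hb _
                exact (hw b hb).1
        linarith
      have h8 : (s * L + M) * L ^ (s - I.card) ≤ (((s + 1 : ℕ) : ℝ) * M) * L ^ (s - I.card) := by
        apply mul_le_mul_of_nonneg_right _ (by positivity)
        push_cast
        have : (s : ℝ) * L ≤ s * M := mul_le_mul_of_nonneg_left hLM (by positivity)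
        linarith
      calc (∏ i, w (t i)) * ∑ b ∈ A, w b * L ^ (s + 1 - (insert b I).card)
          ≤ (∏ i, w (t i)) * ((((s + 1 : ℕ) : ℝ) * M) * L ^ (s - I.card)) :=
            mul_le_mul_of_nonneg_left (h3.trans h8) hw0
        _ = (((s + 1 : ℕ) : ℝ) * M) * ((∏ i, w (t i)) * L ^ (s - I.card)) := by ring
    calc _ ≤ ∑ t ∈ Fintype.piFinset (fun _ : Fin s => A),
          (((s + 1 : ℕ) : ℝ) * M) * ((∏ i, w (t i)) * L ^ (s - (univ.image t).card)) :=
          Finset.sum_le_sum h1
      _ = (((s + 1 : ℕ) : ℝ) * M) * ∑ t ∈ Fintype.piFinset (fun _ : Fin s => A),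
          (∏ i, w (t i)) * L ^ (s - (univ.image t).card) := (Finset.mul_sum _ _ _).symm
      _ ≤ (((s + 1 : ℕ) : ℝ) * M) * ((s : ℝ) * M) ^ s :=
          mul_le_mul_of_nonneg_left ih (by positivity)
      _ ≤ (((s + 1 : ℕ) : ℝ) * M) * (((s + 1 : ℕ) : ℝ) * M) ^ s := by
          apply mul_le_mul_of_nonneg_left _ (by positivity)
          apply pow_le_pow_left₀ (by positivity)
          apply mul_le_mul_of_nonneg_right _ hM0
          push_cast
          linarith
      _ = (((s + 1 : ℕ) : ℝ) * M) ^ (s + 1) := by ring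

theorem moment_bound (s K : ℕ) (hs : 1 ≤ s) : ∃ C : ℝ, 0 < C ∧ ∀ᶠ x : ℕ in atTop,
    ∀ (A : Finset ℕ) (w : ℕ → ℝ), (∀ a ∈ A, (a : ℝ) ≤ x * Real.log x ^ K) →
      (∀ a ∈ A, 0 ≤ w a ∧ w a ≤ 1) → Real.log x ≤ ∑ a ∈ A, w a →
      ∑ n ∈ Icc 1 x, (∑ a ∈ A, w a * ip (n + a)) ^ s
        ≤ C * Real.log (Real.log x) ^ s * (x * ((∑ a ∈ A, w a) / Real.log x) ^ s) := by
  classical
  obtain ⟨C, hC, hev⟩ := cnt_upper_all s K hs
  refine ⟨C * (s : ℝ) ^ s, by positivity, ?_⟩
  filter_upwards [hev, eventually_ge_atTop 16] with x hx hx16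
  intro A w hA hw hM
  have hx16' : (16 : ℝ) ≤ x := by exact_mod_cast hx16
  have hlog : 1 < Real.log x := by
    rw [Real.lt_log_iff_exp_lt (by linarith)]
    have := Real.exp_one_lt_d9
    linarith
  set L : ℝ := Real.log x with hL
  set M : ℝ := ∑ a ∈ A, w a with hMdef
  have hLL : 0 ≤ Real.log L := Real.log_nonneg hlog.le
  have hL0 : 0 < L := by linarith
  have h1 : ∑ n ∈ Icc 1 x, (∑ a ∈ A, w a * ip (n + a)) ^ s =
      ∑ t ∈ Fintype.piFinset (fun _ : Fin s => A), (∏ i, w (t i)) * (cnt t x : ℝ) := by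
    have h2 : ∀ n ∈ Icc 1 x, (∑ a ∈ A, w a * ip (n + a)) ^ s =
        ∑ t ∈ Fintype.piFinset (fun _ : Fin s => A), (∏ i, w (t i)) * ∏ i, ip (n + t i) := by
      intro n _
      rw [← Fintype.card_fin s, ← Finset.card_univ, ← Finset.prod_const, Finset.card_univ,
        Fintype.card_fin, Finset.prod_univ_sum]
      apply Finset.sum_congr rfl
      intro t _
      rw [Finset.prod_mul_distrib]
    rw [Finset.sum_congr rfl h2, Finset.sum_comm]
    apply Finset.sum_congr rfl
    intro t _
    rw [cnt_eq, Finset.mul_sum]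
  rw [h1]
  have h3 : ∀ t ∈ Fintype.piFinset (fun _ : Fin s => A), (∏ i, w (t i)) * (cnt t x : ℝ) ≤
      (C * Real.log L ^ s * (x / L ^ s)) * ((∏ i, w (t i)) * L ^ (s - (univ.image t).card)) := by
    intro t ht
    have hw0 := prod_w_nonneg hw ht
    have hd : (univ.image t).card ≤ s := by
      have := Finset.card_image_le (s := (Finset.univ : Finset (Fin s))) (f := t)
      simpa using this
    have h4 := hx (Fin s) t (Fintype.card_fin s) (fun i => hA _ (Fintype.mem_piFinset.1 ht i))
    have h5 : (x : ℝ) / L ^ (univ.image t).card = x / L ^ s * L ^ (s - (univ.image t).card) := by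
      rw [div_mul_eq_mul_div, div_eq_div_iff (by positivity) (by positivity)]
      rw [mul_assoc, ← pow_add, Nat.sub_add_cancel hd]
    calc (∏ i, w (t i)) * (cnt t x : ℝ)
        ≤ (∏ i, w (t i)) * (C * Real.log L ^ s * (x / L ^ (univ.image t).card)) :=
          mul_le_mul_of_nonneg_left h4 hw0
      _ = (C * Real.log L ^ s * (x / L ^ s)) * ((∏ i, w (t i)) * L ^ (s - (univ.image t).card)) := by
          rw [h5]; ring
  calc _ ≤ ∑ t ∈ Fintype.piFinset (fun _ : Fin s => A),
        (C * Real.log L ^ s * (x / L ^ s)) * ((∏ i, w (t i)) * L ^ (s - (univ.image t).card)) :=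
        Finset.sum_le_sum h3
    _ = (C * Real.log L ^ s * (x / L ^ s)) * ∑ t ∈ Fintype.piFinset (fun _ : Fin s => A),
        (∏ i, w (t i)) * L ^ (s - (univ.image t).card) := by rw [Finset.mul_sum]
    _ ≤ (C * Real.log L ^ s * (x / L ^ s)) * ((s : ℝ) * M) ^ s :=
        mul_le_mul_of_nonneg_left (comb s A w hw hlog.le hM) (by positivity)
    _ = C * (s : ℝ) ^ s * Real.log L ^ s * (x * (M / L) ^ s) := by
        rw [mul_pow, div_pow]; ring

end Pool.Agent.AS
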