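import Pool.Agent.Lib.AS.Main
import Pool.Agent.Lib.NP.Prop

/-!
# Positive proportion of the solutions of a symmetric system
-/

set_option autoImplicit false

open Finset Filter

namespace Pool.Agent.AS

open Pool.Agent.HL Pool.Agent.Lib.Sieve4 Pool.Agent.HLB Pool.Agent.HLD Pool.Agent.NP

open scoped Classical in
theorem sol_proportion (hSW : SW) (s : ℕ) (hs : 1 ≤ s) {ρ : ℝ} (hρ0 : 0 < ρ) (hρ : ρ < 1) :
    ∃ δ : ℝ, 0 < δ ∧ ∀ (ε' : ℝ), 0 < ε' → ∀ K0 : ℕ, ∀ᶠ x : ℕ in atTop,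
      ∀ (G : Type) [AddCommGroup G] (Ψ : ℕ → G) (A : Finset ℕ) (w : ℕ → ℝ),
      (∀ a ∈ A, (a : ℝ) ≤ x * Real.log x ^ K0) → (∀ a ∈ A, 0 ≤ w a ∧ w a ≤ 1) →
      (∑ a ∈ A, w a) ^ s * Real.log x ^ ((s : ℝ) + ε') ≤ JJ s Ψ A w →
      ∃ Gd ⊆ (sol s Ψ A).filter Function.Injective,
        (∀ a ∈ Gd, (∀ p : ℕ, p.Prime → nuI a p < p) ∧
          ρ * SI a * (x / Real.log x ^ (2 * s)) ≤ cnt a x) ∧
        δ * ∑ a ∈ (sol s Ψ A).filter Function.Injective, (∏ l, w (a l)) * SI a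
          ≤ ∑ a ∈ Gd, (∏ l, w (a l)) * SI a ∧
        δ * JJ s Ψ A w ≤ ∑ a ∈ Gd, (∏ l, w (a l)) * SI a := by
  set r : ℕ := 2 * s with hr
  have hr1 : 1 ≤ r := by omega
  obtain ⟨K, hK, hKup⟩ := tuple_upperI r hr1
  have hρ' : 0 < 1 - ρ := by linarith
  have hrR : (1:ℝ) ≤ (r : ℝ) := by exact_mod_cast hr1
  refine ⟨(1 - ρ) / (4 * K) / max 1 (4 * (K + ρ)), by positivity, fun ε' hε' K0 => ?_⟩
  filter_upwards [sol_lower hSW s K0 hs (ε := (1 - ρ) / 4) (by linarith) hε',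
    (tendsto_x_div_log_pow r).eventually_ge_atTop (8 * r / (1 - ρ)),
    (tendsto_x_div_log_pow r).eventually_ge_atTop (4 * r), eventually_ge_atTop 3]
    with x hx1 hx2 hx2' hx3
  intro Gr _ Ψ A w hA hw hJ
  have hx3R : (3:ℝ) ≤ x := by exact_mod_cast hx3
  have hlog : 0 < Real.log x := Real.log_pos (by linarith)
  have hxpos : (0:ℝ) < x := by linarith
  have hcardI : Fintype.card (Fin s ⊕ Fin s) = r := by
    rw [Fintype.card_sum, Fintype.card_fin]; omega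
  have hP0 : ∀ a ∈ sol s Ψ A, 0 ≤ ∏ l, w (a l) := fun a ha =>
    Finset.prod_nonneg fun l _ => (hw _ ((mem_sol.mp ha).1 l)).1
  obtain ⟨h1, h2⟩ := hx1 Gr Ψ A w hA hw hJ
  set I := (sol s Ψ A).filter Function.Injective with hI
  set Wt : ℝ := JJ s Ψ A w with hWt
  have hWdef : Wt = ∑ a ∈ sol s Ψ A, ∏ l, w (a l) := rfl
  have hWt0 : 0 ≤ Wt := JJ_nonneg s Ψ A fun a ha => (hw a ha).1
  have hI0 : ∀ a ∈ I, 0 ≤ ∏ l, w (a l) := fun a ha => hP0 a (mem_filter.mp ha).1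
  rcases hWt0.eq_or_lt with hW0 | hWpos
  · -- all weights vanish
    have hz : ∀ a ∈ sol s Ψ A, ∏ l, w (a l) = 0 := fun a ha =>
      (Finset.sum_eq_zero_iff_of_nonneg hP0).mp (hWdef ▸ hW0.symm) a ha
    refine ⟨∅, Finset.empty_subset _, fun t ht => absurd ht (Finset.notMem_empty t), ?_, ?_⟩
    · rw [Finset.sum_empty, Finset.sum_eq_zero fun t ht => by
        rw [hz t (mem_filter.mp ht).1, zero_mul], mul_zero]
    · rw [← hW0, mul_zero, Finset.sum_empty]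
  set J := I.filter (fun a => 0 < ∏ l, w (a l)) with hJdef
  have hJI : ∀ f : (Fin s ⊕ Fin s → ℕ) → ℝ,
      ∑ a ∈ I, (∏ l, w (a l)) * f a = ∑ a ∈ J, (∏ l, w (a l)) * f a := by
    intro f
    refine (Finset.sum_subset (Finset.filter_subset _ _) fun t ht1 ht2 => ?_).symm
    rw [mem_filter, not_and] at ht2
    have h3 : ∏ l, w (t l) = 0 := le_antisymm (not_lt.mp (ht2 ht1)) (hI0 t ht1)
    rw [h3, zero_mul]
  have hmemJ : ∀ t ∈ J, Function.Injective t ∧ 0 < ∏ l, w (t l) := fun t ht =>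
    ⟨(mem_filter.mp (mem_filter.mp ht).1).2, (mem_filter.mp ht).2⟩
  rw [hJI (fun t => SI t), hJI (fun t => (cnt t x : ℝ))] at h1
  rw [hJI (fun t => (cnt t x : ℝ))] at h2
  obtain ⟨Gd, hG, hGa, hG1, hG2⟩ := prop_genericW J
    (fun t => (∏ l, w (t l)) * SI t) (fun t => (∏ l, w (t l)) * (cnt t x : ℝ))
    (fun t => ∏ l, w (t l))
    (fun t => ∀ p : ℕ, p.Prime → nuI t p < p) (K := K) (ρ := ρ)
    (X := x / Real.log x ^ r) (N := Wt) (r := (r : ℝ)) hK hρ0 hρ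
    (by positivity) hWpos (by positivity)
    (fun t ht => mul_nonneg (hmemJ t ht).2.le (SI_nonneg _ (hmemJ t ht).1))
    (fun t ht => (hmemJ t ht).2.le)
    (fun t ht hadm => by
      have h4 := hKup _ t hcardI (hmemJ t ht).1 hadm x (by omega)
      have h5 := mul_le_mul_of_nonneg_left h4 (hmemJ t ht).2.le
      refine h5.trans (le_of_eq ?_)
      ring)
    (fun t ht hadm => by
      push Not at hadm
      obtain ⟨p, hp, hnp⟩ := hadm
      have h8 := count_inadm t hp hnp x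
      rw [hcardI] at h8
      rw [mul_comm]
      refine mul_le_mul_of_nonneg_right ?_ (hmemJ t ht).2.le
      exact_mod_cast h8)
    h1 h2 (Finset.sum_le_sum_of_subset_of_nonneg
      ((Finset.filter_subset _ _).trans (Finset.filter_subset _ _))
      fun t ht _ => hP0 t ht) hx2 hx2'
  refine ⟨Gd, hG.trans (Finset.filter_subset _ _), fun t ht => ?_, ?_, ?_⟩
  · obtain ⟨hadm, h6⟩ := hGa t ht
    refine ⟨hadm, ?_⟩
    have h7 := (hmemJ t (hG ht)).2
    have h8 : (∏ l, w (t l)) * (ρ * SI t * (x / Real.log x ^ r))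
        ≤ (∏ l, w (t l)) * (cnt t x : ℝ) := le_trans (le_of_eq (by ring)) h6
    exact le_of_mul_le_mul_left h8 h7
  · rw [hJI]
    refine le_trans ?_ hG1
    refine mul_le_mul_of_nonneg_right ?_
      (Finset.sum_nonneg fun t ht => mul_nonneg (hmemJ t ht).2.le (SI_nonneg _ (hmemJ t ht).1))
    exact div_le_self (by positivity) (le_max_left _ _)
  · refine le_trans ?_ hG1
    rw [div_mul_eq_mul_div, div_le_iff₀ (by positivity)]
    have hS0 : 0 ≤ ∑ t ∈ J, (∏ l, w (t l)) * SI t :=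
      Finset.sum_nonneg fun t ht => mul_nonneg (hmemJ t ht).2.le (SI_nonneg _ (hmemJ t ht).1)
    calc (1 - ρ) / (4 * K) * Wt
        ≤ (1 - ρ) / (4 * K) * (4 * (K + ρ) * ∑ t ∈ J, (∏ l, w (t l)) * SI t) := by gcongr
      _ ≤ (1 - ρ) / (4 * K) * (max 1 (4 * (K + ρ)) *
          ∑ t ∈ J, (∏ l, w (t l)) * SI t) := by
          gcongr
          exact le_max_right _ _
      _ = _ := by ring

end Pool.Agent.AS
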