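import Pool.Agent.Lib.AS.Defs

/-!
# Number of solutions of the Vinogradov system in `{1, …, N}` from below

Sketch. `card_sol_ge`: if all sums `∑ i, Ψ (a i)`, `a ∈ A^s`, lie in a finite set `T` then by Cauchy-Schwarz
`(card A)^(2s) = (∑_{v ∈ T} r(v))^2 ≤ card T * ∑_{v ∈ T} r(v)^2 = card T * card (sol s Ψ A)`, `r(v)` = number of `a ∈ A^s`
with sum `v` (`Finset.card_eq_sum_card_fiberwise`, `sq_sum_le_card_mul_sum_sq`; a solution is a pair of elements
of `A^s` with the same sum: `Equiv.sumArrowEquivProdArrow`).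
`vino`: for `Ψ a = (a, a^2, …, a^k)` and `A = {1, …, N}` take `T` = the box `∏_{j=1..k} [1, s N^j]`, which has
`s^k N^(k(k+1)/2)` elements (for `s ≥ 1`), so `N^(2s) ≤ s^k N^(k(k+1)/2) card sol`. With `(log x)^B ≤ N`,
`B (s - k(k+1)/2) > s` one gets `N^s (log x)^(s+ε') ≤ card sol` for large `x`, for
`ε' = (B (s - k(k+1)/2) - s)/2 > 0`.
-/

set_option autoImplicit false

open Finset Filter

namespace Pool.Agent.AS

theorem card_sol_ge (s : ℕ) {G : Type} [AddCommGroup G] (Ψ : ℕ → G) (A : Finset ℕ)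
    (T : Finset G) (hT : ∀ a : Fin s → ℕ, (∀ i, a i ∈ A) → ∑ i, Ψ (a i) ∈ T) :
    ((A.card : ℝ) ^ s) ^ 2 ≤ T.card * ((sol s Ψ A).card : ℝ) := by
  classical
  set P : Finset (Fin s → ℕ) := Fintype.piFinset (fun _ => A) with hP
  set g : (Fin s → ℕ) → G := fun a => ∑ i, Ψ (a i) with hg
  have hPc : P.card = A.card ^ s := by
    rw [hP, Fintype.card_piFinset, Finset.prod_const, Finset.card_univ, Fintype.card_fin]
  have hgT : ∀ a ∈ P, g a ∈ T := by
    intro a ha
    exact hT a (fun i => (Fintype.mem_piFinset.1 ha) i)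
  have h1 : P.card = ∑ v ∈ T, (P.filter (fun a => g a = v)).card :=
    Finset.card_eq_sum_card_fiberwise hgT
  set Q : Finset ((Fin s → ℕ) × (Fin s → ℕ)) := (P ×ˢ P).filter (fun p => g p.1 = g p.2) with hQ
  have h2 : Q.card = ∑ v ∈ T, (P.filter (fun a => g a = v)).card ^ 2 := by
    rw [Finset.card_eq_sum_card_fiberwise (f := fun p : (Fin s → ℕ) × (Fin s → ℕ) => g p.1) (t := T)]
    · apply Finset.sum_congr rfl
      intro v _
      rw [sq, ← Finset.card_product]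
      congr 1
      ext p
      simp only [hQ, mem_filter, mem_product]
      constructor
      · rintro ⟨⟨⟨h1, h2⟩, h3⟩, h4⟩
        exact ⟨⟨h1, h4⟩, ⟨h2, by rw [← h3, h4]⟩⟩
      · rintro ⟨⟨h1, h4⟩, ⟨h2, h5⟩⟩
        exact ⟨⟨⟨h1, h2⟩, by rw [h4, h5]⟩, h4⟩
    · intro p hp
      have hp' : p ∈ Q := hp
      simp only [hQ, mem_filter, mem_product] at hp'
      exact hgT _ hp'.1.1
  have h3 : Q.card ≤ (sol s Ψ A).card := by
    apply Finset.card_le_card_of_injOn (fun p => Sum.elim p.1 p.2)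
    · intro p hp
      have hp' : p ∈ Q := hp
      simp only [hQ, mem_filter, mem_product, hP, Fintype.mem_piFinset] at hp'
      rw [Finset.mem_coe, mem_sol]
      refine ⟨?_, ?_⟩
      · intro l
        cases l with
        | inl i => exact hp'.1.1 i
        | inr i => exact hp'.1.2 i
      · exact hp'.2
    · intro p _ q _ h
      have h' : Sum.elim p.1 p.2 = Sum.elim q.1 q.2 := h
      apply Prod.ext
      · funext i
        exact congrFun h' (Sum.inl i)
      · funext i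
        exact congrFun h' (Sum.inr i)
  have h4 : ((P.card : ℝ)) ^ 2 ≤ T.card * ((Q.card : ℕ) : ℝ) := by
    rw [h1, h2]
    push_cast
    exact sq_sum_le_card_mul_sum_sq
  rw [hPc] at h4
  push_cast at h4
  refine h4.trans ?_
  apply mul_le_mul_of_nonneg_left _ (Nat.cast_nonneg _)
  exact_mod_cast h3

lemma prod_pow_aux (k : ℕ) (N : ℝ) :
    ∏ j : Fin k, N ^ ((j : ℕ) + 1) = N ^ (k * (k + 1) / 2) := by
  rw [Finset.prod_pow_eq_pow_sum]
  congr 1
  rw [Fin.sum_univ_eq_sum_range (fun j => j + 1) k]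
  have h : ∑ j ∈ range k, (j + 1) = ∑ j ∈ range (k + 1), j := by
    rw [Finset.sum_range_succ']
    simp
  rw [h, Finset.sum_range_id, Nat.add_sub_cancel, mul_comm]

theorem vino (s k : ℕ) (hk : 1 ≤ k) (hs : k * (k + 1) / 2 < s) (B : ℝ)
    (hB : (s : ℝ) < B * ((s : ℝ) - k * (k + 1) / 2)) :
    ∃ ε' : ℝ, 0 < ε' ∧ ∀ᶠ x : ℕ in atTop, ∀ N : ℕ, Real.log x ^ B ≤ N →
      ((Icc 1 N).card : ℝ) ^ s * Real.log x ^ ((s : ℝ) + ε')
        ≤ ((sol s (fun a (j : Fin k) => ((a : ℤ) ^ ((j : ℕ) + 1))) (Icc 1 N)).card : ℝ) := by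
  set K : ℕ := k * (k + 1) / 2 with hK
  have hKr : (k : ℝ) * (k + 1) / 2 = (K : ℝ) := by
    have h2 : 2 * K = k * (k + 1) := by
      rw [hK]
      exact Nat.mul_div_cancel' (Nat.even_mul_succ_self k).two_dvd
    have h3 : (2 : ℝ) * K = k * (k + 1) := by exact_mod_cast h2
    linarith
  rw [hKr] at hB
  have hsK : 0 < (s : ℝ) - K := by
    have : (K : ℝ) < s := Nat.cast_lt.2 hs
    linarith
  have hs1 : 1 ≤ s := by omega
  have hB0 : 0 < B := by
    by_contra h
    push Not at h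
    have : B * ((s : ℝ) - K) ≤ 0 := mul_nonpos_of_nonpos_of_nonneg h hsK.le
    have h2 : (0 : ℝ) ≤ s := Nat.cast_nonneg _
    linarith
  set ε : ℝ := (B * ((s : ℝ) - K) - s) / 2 with hε
  have hε0 : 0 < ε := by
    rw [hε]
    linarith
  refine ⟨ε, hε0, ?_⟩
  have hlim : Tendsto (fun x : ℕ => Real.log (x : ℝ) ^ ε) atTop atTop :=
    (tendsto_rpow_atTop hε0).comp (Real.tendsto_log_atTop.comp tendsto_natCast_atTop_atTop)
  filter_upwards [hlim.eventually_ge_atTop ((s : ℝ) ^ k),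
    (Real.tendsto_log_atTop.comp tendsto_natCast_atTop_atTop).eventually_ge_atTop 1] with x hx1 hx2 N hN
  have hlog : 1 ≤ Real.log (x : ℝ) := hx2
  have hlog0 : 0 < Real.log (x : ℝ) := by linarith
  have hNr : (1 : ℝ) ≤ N := by
    refine le_trans ?_ hN
    exact Real.one_le_rpow hlog hB0.le
  have hN0 : (0 : ℝ) < N := by linarith
  have hN1 : 1 ≤ N := by exact_mod_cast hNr
  rw [Nat.card_Icc, Nat.add_sub_cancel]
  set S := sol s (fun a (j : Fin k) => ((a : ℤ) ^ ((j : ℕ) + 1))) (Icc 1 N) with hS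
  set T : Finset (Fin k → ℤ) :=
    Fintype.piFinset (fun j : Fin k => Icc (1 : ℤ) ((s : ℤ) * (N : ℤ) ^ ((j : ℕ) + 1))) with hTdef
  have hmain := card_sol_ge s (fun a (j : Fin k) => ((a : ℤ) ^ ((j : ℕ) + 1))) (Icc 1 N) T (by
    intro a ha
    rw [hTdef, Fintype.mem_piFinset]
    intro j
    rw [Finset.sum_apply, mem_Icc]
    constructor
    · have h1 : (1 : ℤ) ≤ s := by exact_mod_cast hs1
      refine h1.trans ?_
      calc (s : ℤ) = ∑ i : Fin s, (1 : ℤ) := by simp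
        _ ≤ ∑ i : Fin s, ((a i : ℕ) : ℤ) ^ ((j : ℕ) + 1) := by
            apply Finset.sum_le_sum
            intro i _
            have := (mem_Icc.1 (ha i)).1
            apply one_le_pow₀
            exact_mod_cast this
    · calc ∑ i : Fin s, ((a i : ℕ) : ℤ) ^ ((j : ℕ) + 1) ≤ ∑ i : Fin s, (N : ℤ) ^ ((j : ℕ) + 1) := by
            apply Finset.sum_le_sum
            intro i _
            have := (mem_Icc.1 (ha i)).2
            apply pow_le_pow_left₀ (by positivity)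
            exact_mod_cast this
        _ = (s : ℤ) * (N : ℤ) ^ ((j : ℕ) + 1) := by simp)
  rw [Nat.card_Icc, Nat.add_sub_cancel] at hmain
  have hTc : (T.card : ℝ) = (s : ℝ) ^ k * (N : ℝ) ^ K := by
    rw [hTdef, Fintype.card_piFinset]
    push_cast
    have h1 : ∀ j : Fin k, (((Icc (1 : ℤ) ((s : ℤ) * (N : ℤ) ^ ((j : ℕ) + 1))).card : ℕ) : ℝ) =
        (s : ℝ) * (N : ℝ) ^ ((j : ℕ) + 1) := by
      intro j
      rw [Int.card_Icc]
      have h2 : (s : ℤ) * (N : ℤ) ^ ((j : ℕ) + 1) + 1 - 1 = ((s * N ^ ((j : ℕ) + 1) : ℕ) : ℤ) := by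
        push_cast
        ring
      rw [h2, Int.toNat_natCast]
      push_cast
      ring
    rw [Finset.prod_congr rfl (fun j _ => h1 j), Finset.prod_mul_distrib, prod_pow_aux,
      Finset.prod_const, Finset.card_univ, Fintype.card_fin, ← hK]
  rw [hTc] at hmain
  -- power comparison
  have hpow : (s : ℝ) ^ k * Real.log (x : ℝ) ^ ((s : ℝ) + ε) ≤ (N : ℝ) ^ (s - K) := by
    calc (s : ℝ) ^ k * Real.log (x : ℝ) ^ ((s : ℝ) + ε)
        ≤ Real.log (x : ℝ) ^ ε * Real.log (x : ℝ) ^ ((s : ℝ) + ε) := by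
          apply mul_le_mul_of_nonneg_right hx1
          positivity
      _ = (Real.log (x : ℝ) ^ B) ^ ((s : ℝ) - K) := by
          rw [← Real.rpow_add hlog0, ← Real.rpow_mul hlog0.le]
          congr 1
          rw [hε]
          ring
      _ ≤ (N : ℝ) ^ ((s : ℝ) - K) := by
          apply Real.rpow_le_rpow (by positivity) hN hsK.le
      _ = (N : ℝ) ^ (s - K) := by
          rw [← Real.rpow_natCast, Nat.cast_sub hs.le]
  have hfin : (s : ℝ) ^ k * (N : ℝ) ^ K * ((N : ℝ) ^ s * Real.log (x : ℝ) ^ ((s : ℝ) + ε)) ≤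
      (s : ℝ) ^ k * (N : ℝ) ^ K * (S.card : ℝ) := by
    refine le_trans ?_ hmain
    calc (s : ℝ) ^ k * (N : ℝ) ^ K * ((N : ℝ) ^ s * Real.log (x : ℝ) ^ ((s : ℝ) + ε))
        = ((s : ℝ) ^ k * Real.log (x : ℝ) ^ ((s : ℝ) + ε)) * ((N : ℝ) ^ K * (N : ℝ) ^ s) := by ring
      _ ≤ (N : ℝ) ^ (s - K) * ((N : ℝ) ^ K * (N : ℝ) ^ s) := by
          apply mul_le_mul_of_nonneg_right hpow
          positivity
      _ = ((N : ℝ) ^ s) ^ 2 := by
          rw [← mul_assoc, ← pow_add, Nat.sub_add_cancel hs.le, sq]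
  have hpos : 0 < (s : ℝ) ^ k * (N : ℝ) ^ K := by
    have : (0 : ℝ) < s := by exact_mod_cast hs1
    positivity
  exact le_of_mul_le_mul_left hfin hpos

end Pool.Agent.AS
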